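import Mathlib
import Pool.Agent.H38.AE.Statement

/-!
# The height of almost all admissible `n`-tuples ordered by radical: statement

`MP_7ecdd4_nt`, all `n ≥ 3`.
-/

set_option autoImplicit false

namespace Pool.Agent.H38.AT

open Pool.Agent.H38.AE.Statement

/-- The height of a tuple: the largest absolute value of its entries. -/
def height {n : ℕ} (x : Fin n → ℤ) : ℕ := Finset.univ.sup fun i => (x i).natAbs

/-- The number of distinct primes which divide the product of the entries. -/
def primeCount {n : ℕ} (x : Fin n → ℤ) : ℕ := (∏ i, x i).natAbs.primeFactors.card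

/-- The range of heights: `log (height x) ≤ (log X) ^ (2 - ε)` or
`primeCount x * log (2 + log (height x) / log X) ≤ ρ log X`. -/
def InRange {n : ℕ} (ε ρ X : ℝ) (x : Fin n → ℤ) : Prop :=
  Real.log (height x) ≤ Real.log X ^ (2 - ε) ∨
    (primeCount x : ℝ) * Real.log (2 + Real.log (height x) / Real.log X) ≤ ρ * Real.log X

/-- The admissible `n`-tuples in the range of heights, with radical of the product at most `X`,
whose height is larger than the `M`-th power of this radical. -/
def Violators (n : ℕ) (M ε ρ X : ℝ) : Set (Fin n → ℤ) :=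
  {x | Admissible x ∧ (radical (∏ i, x i) : ℝ) ≤ X ∧ InRange ε ρ X x ∧
    (radical (∏ i, x i) : ℝ) ^ M < (height x : ℝ)}

/-- The admissible `n`-tuples with radical of the product and height at most `X`. -/
def Box (n : ℕ) (X : ℝ) : Set (Fin n → ℤ) :=
  {x | Admissible x ∧ (radical (∏ i, x i) : ℝ) ≤ X ∧ (height x : ℝ) ≤ X}

end Pool.Agent.H38.AT
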