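import Pool.Agent.H38.AT.NR2
import Pool.Agent.H18.AT.ALN

/-!
# Almost all admissible `n`-tuples of height at most `exp ((log X) ^ (2 - κ))`
-/

set_option autoImplicit false

open Pool.Agent.H38.AE.Statement (Admissible radical)
open Pool.Agent.H38.PS (pd)

namespace Pool.Agent.H38.AT

/-- AL2: almost all tuples of height at most `exp ((log X) ^ (2 - κ))`. -/
def T_AL2 : Prop := ∀ (n : ℕ) (ε κ : ℝ), 3 ≤ n → 0 < ε → 0 < κ → ∃ c C : ℝ, 0 < c ∧ 0 < C ∧
  ∀ X : ℝ, 2 ≤ X →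
  {x : Fin n → ℤ | Admissible x ∧ (pd (prn x).primeFactors : ℝ) ≤ X ∧
    Real.log (htn x) ≤ Real.log X ^ (2 - κ) ∧
    (pd (prn x).primeFactors : ℝ) ^ (1 / (n : ℝ) + ε) < (htn x : ℝ)}.Finite ∧
  ({x : Fin n → ℤ | Admissible x ∧ (pd (prn x).primeFactors : ℝ) ≤ X ∧
    Real.log (htn x) ≤ Real.log X ^ (2 - κ) ∧
    (pd (prn x).primeFactors : ℝ) ^ (1 / (n : ℝ) + ε) < (htn x : ℝ)}.ncard : ℝ) ≤
    C * X ^ (1 - 1 / (n : ℝ) - c)

theorem pf_AL2 (hP : T_POL) (hR : T_RGN) (hN : T_NR2) : T_AL2 := by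
  intro n ε κ₀ hn hε hκ₀
  obtain ⟨κ, hκdef⟩ : ∃ κ, κ = min κ₀ 1 := ⟨_, rfl⟩
  have hκ : 0 < κ := by rw [hκdef]; exact lt_min hκ₀ one_pos
  have hκ1 : κ ≤ 1 := by rw [hκdef]; exact min_le_right _ _
  have hκκ : κ ≤ κ₀ := by rw [hκdef]; exact min_le_left _ _
  obtain ⟨A₀, ρ₁, c₁, C₁, X₁, hA₀, hρ₁, hc₁, hC₁, hX₁, h₁⟩ := hR n hn
  obtain ⟨c₂, C₂, X₂, hc₂, hC₂, hX₂, h₂⟩ := hN n κ (ρ₁ / 2) hn hκ hκ1 (half_pos hρ₁)
  obtain ⟨c₃, C₃, hc₃, hC₃, h₃⟩ := hP n ε A₀ hn hε hA₀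
  set c : ℝ := min (min c₁ c₂) (min c₃ (1 / 2)) with hcdef
  have hc : 0 < c := lt_min (lt_min hc₁ hc₂) (lt_min hc₃ (by norm_num))
  have hcc₁ : c ≤ c₁ := (min_le_left _ _).trans (min_le_left _ _)
  have hcc₂ : c ≤ c₂ := (min_le_left _ _).trans (min_le_right _ _)
  have hcc₃ : c ≤ c₃ := (min_le_right _ _).trans (min_le_left _ _)
  have hcc₄ : c ≤ 1 / 2 := (min_le_right _ _).trans (min_le_right _ _)
  set X₀ : ℝ := max X₁ X₂ with hX₀def
  set M : ℝ := max (Real.log 2 ^ (2 - κ₀)) (Real.log X₀ ^ (2 - κ₀)) with hM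
  set N : ℕ := ⌈Real.exp M⌉₊ with hNdef
  set T : Set (Fin n → ℤ) := {x | ∀ i, (x i).natAbs ≤ N} with hTdef
  have hT : T.Finite := Pool.Agent.H18.AT.box_fin n N
  refine ⟨c, C₁ + C₂ + C₃ + T.ncard, hc, by positivity, fun X hX => ?_⟩
  have hX1 : 1 ≤ X := by linarith
  have hX0 : 0 < X := by linarith
  set S : Set (Fin n → ℤ) := {x : Fin n → ℤ | Admissible x ∧ (pd (prn x).primeFactors : ℝ) ≤ X ∧
    Real.log (htn x) ≤ Real.log X ^ (2 - κ₀) ∧
    (pd (prn x).primeFactors : ℝ) ^ (1 / (n : ℝ) + ε) < (htn x : ℝ)} with hSdef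
  have hTc : (0 : ℝ) ≤ (T.ncard : ℝ) := Nat.cast_nonneg _
  have hexp : (0 : ℝ) ≤ 1 - 1 / (n : ℝ) - c := by
    have h3 : (3 : ℝ) ≤ n := by exact_mod_cast hn
    have : 1 / (n : ℝ) ≤ 1 / 3 := by
      apply one_div_le_one_div_of_le (by norm_num) h3
    linarith
  have hXe : 1 ≤ X ^ (1 - 1 / (n : ℝ) - c) := Real.one_le_rpow hX1 hexp
  rcases le_or_gt X₀ X with hX₀ | hX₀
  · -- large `X`
    have hX16 : 16 ≤ X := hX₁.trans ((le_max_left _ _).trans hX₀)
    have hl2 : 2 ≤ Real.log X := by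
      rw [Real.le_log_iff_exp_le hX0]
      have h1 : Real.exp 2 = Real.exp 1 * Real.exp 1 := by rw [← Real.exp_add]; norm_num
      rw [h1]
      nlinarith [Real.exp_one_lt_d9, Real.exp_pos 1]
    have hl0 : 0 < Real.log X := by linarith
    have hll : 0 ≤ Real.log (Real.log X) := Real.log_nonneg (by linarith)
    obtain ⟨f₁, g₁⟩ := h₁ X ((le_max_left _ _).trans hX₀)
    obtain ⟨f₂, g₂⟩ := h₂ X ((le_max_right _ _).trans hX₀)
    obtain ⟨f₃, g₃⟩ := h₃ X hX1
    set S₁ : Set (Fin n → ℤ) :=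
      {x | x ∈ RdN n X ρ₁ ∧ Cd ρ₁ X x ∧ A₀ * Real.log X ≤ Real.log (htn x)} with hS₁
    set S₂ : Set (Fin n → ℤ) := {x : Fin n → ℤ | Admissible x ∧
      (pd (prn x).primeFactors : ℝ) ≤ X ∧ Real.log (htn x) ≤ Real.log X ^ (2 - κ) ∧
      x ∉ RdN n X (ρ₁ / 2)} with hS₂
    set S₃ : Set (Fin n → ℤ) := {x : Fin n → ℤ | Admissible x ∧
      (pd (prn x).primeFactors : ℝ) ≤ X ∧
      (pd (prn x).primeFactors : ℝ) ^ (1 / (n : ℝ) + ε) < (htn x : ℝ) ∧
      Real.log (htn x) ≤ A₀ * Real.log X} with hS₃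
    have hsub : S ⊆ (S₁ ∪ S₂) ∪ S₃ := by
      rintro x ⟨hx1, hx2, hx3, hx4⟩
      have hx3' : Real.log (htn x) ≤ Real.log X ^ (2 - κ) :=
        hx3.trans (Real.rpow_le_rpow_of_exponent_le (by linarith) (by linarith))
      rcases le_or_gt (Real.log (htn x)) (A₀ * Real.log X) with h | h
      · exact Or.inr ⟨hx1, hx2, hx4, h⟩
      · left
        by_cases hr : x ∈ RdN n X (ρ₁ / 2)
        · left
          obtain ⟨-, -, hr3, hr4⟩ := hr
          refine ⟨⟨hx1, hx2, fun i => ?_, ?_⟩, ?_, h.le⟩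
          · exact (Real.rpow_le_rpow_of_exponent_le hX1 (by linarith)).trans (hr3 i)
          · refine hr4.trans ?_
            exact mul_le_mul_of_nonneg_right (by linarith) hl0.le
          · unfold Cd
            have h5 : Real.log (htn x) / Real.log X ≤ Real.log X := by
              rw [div_le_iff₀ hl0]
              refine hx3'.trans ?_
              calc Real.log X ^ (2 - κ) ≤ Real.log X ^ (2 : ℝ) :=
                    Real.rpow_le_rpow_of_exponent_le (by linarith) (by linarith)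
                _ = Real.log X * Real.log X := by
                    rw [show (2 : ℝ) = ((2 : ℕ) : ℝ) by norm_num, Real.rpow_natCast, sq]
            have h6 : 0 ≤ Real.log (htn x) / Real.log X := by
              have : 0 ≤ Real.log (htn x) := by
                have h7 : 0 ≤ A₀ * Real.log X := by positivity
                linarith
              positivity
            have h7 : Real.log (2 + Real.log (htn x) / Real.log X) ≤
                2 * Real.log (Real.log X) := by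
              have h8 : 2 + Real.log (htn x) / Real.log X ≤ Real.log X ^ 2 := by nlinarith
              calc Real.log (2 + Real.log (htn x) / Real.log X) ≤ Real.log (Real.log X ^ 2) :=
                    Real.log_le_log (by linarith) h8
                _ = 2 * Real.log (Real.log X) := by rw [Real.log_pow]; norm_num
            calc ((prn x).primeFactors.card : ℝ) *
                  Real.log (2 + Real.log (htn x) / Real.log X)
                ≤ ((prn x).primeFactors.card : ℝ) * (2 * Real.log (Real.log X)) :=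
                  mul_le_mul_of_nonneg_left h7 (Nat.cast_nonneg _)
              _ = 2 * (((prn x).primeFactors.card : ℝ) * Real.log (Real.log X)) := by ring
              _ ≤ 2 * (ρ₁ / 2 * Real.log X) := by linarith
              _ = ρ₁ * Real.log X := by ring
        · exact Or.inr ⟨hx1, hx2, hx3', hr⟩
    have hfin : ((S₁ ∪ S₂) ∪ S₃).Finite := (f₁.union f₂).union f₃
    refine ⟨hfin.subset hsub, ?_⟩
    have hcard : (S.ncard : ℝ) ≤ S₁.ncard + S₂.ncard + S₃.ncard := by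
      have e1 := Set.ncard_le_ncard hsub hfin
      have e2 := Set.ncard_union_le (S₁ ∪ S₂) S₃
      have e3 := Set.ncard_union_le S₁ S₂
      have e4 : S.ncard ≤ S₁.ncard + S₂.ncard + S₃.ncard := by omega
      exact_mod_cast e4
    have m : ∀ c' : ℝ, c ≤ c' → X ^ (1 - 1 / (n : ℝ) - c') ≤ X ^ (1 - 1 / (n : ℝ) - c) :=
      fun c' h => Real.rpow_le_rpow_of_exponent_le hX1 (by linarith)
    have e1 : C₁ * X ^ (1 - 1 / (n : ℝ) - c₁) ≤ C₁ * X ^ (1 - 1 / (n : ℝ) - c) :=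
      mul_le_mul_of_nonneg_left (m c₁ hcc₁) hC₁.le
    have e2 : C₂ * X ^ (1 - 1 / (n : ℝ) - c₂) ≤ C₂ * X ^ (1 - 1 / (n : ℝ) - c) :=
      mul_le_mul_of_nonneg_left (m c₂ hcc₂) hC₂.le
    have e3 : C₃ * X ^ (1 - 1 / (n : ℝ) - c₃) ≤ C₃ * X ^ (1 - 1 / (n : ℝ) - c) :=
      mul_le_mul_of_nonneg_left (m c₃ hcc₃) hC₃.le
    have e4 : 0 ≤ (T.ncard : ℝ) * X ^ (1 - 1 / (n : ℝ) - c) := by positivity
    have e5 : (C₁ + C₂ + C₃ + T.ncard) * X ^ (1 - 1 / (n : ℝ) - c) =
        C₁ * X ^ (1 - 1 / (n : ℝ) - c) + C₂ * X ^ (1 - 1 / (n : ℝ) - c) +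
        C₃ * X ^ (1 - 1 / (n : ℝ) - c) + T.ncard * X ^ (1 - 1 / (n : ℝ) - c) := by ring
    rw [e5]
    linarith
  · -- small `X`
    have hsub : S ⊆ T := by
      rintro x ⟨hx1, _, hx3, _⟩ i
      refine (Pool.Agent.H18.AT.htn_ge x i).trans ?_
      have hlog2 : 0 < Real.log 2 := Real.log_pos (by norm_num)
      have hlX : Real.log 2 ≤ Real.log X := Real.log_le_log (by norm_num) hX
      have hlX₀ : Real.log X ≤ Real.log X₀ := Real.log_le_log hX0 hX₀.le
      have h1 : Real.log X ^ (2 - κ₀) ≤ M := by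
        rcases le_or_gt 0 (2 - κ₀) with h | h
        · exact (Real.rpow_le_rpow (by linarith) hlX₀ h).trans (le_max_right _ _)
        · exact (Real.rpow_le_rpow_of_nonpos hlog2 hlX h.le).trans (le_max_left _ _)
      rcases Nat.eq_zero_or_pos (htn x) with h0 | h0
      · rw [h0]
        exact Nat.zero_le _
      have h2 : (htn x : ℝ) ≤ Real.exp M := by
        rw [← Real.log_le_iff_le_exp (by exact_mod_cast h0)]
        exact hx3.trans h1
      exact_mod_cast h2.trans (Nat.le_ceil _)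
    refine ⟨hT.subset hsub, ?_⟩
    have e1 : (S.ncard : ℝ) ≤ T.ncard := by exact_mod_cast Set.ncard_le_ncard hsub hT
    have e2 : (T.ncard : ℝ) ≤ C₁ + C₂ + C₃ + T.ncard := by linarith
    have e3 : (0 : ℝ) ≤ C₁ + C₂ + C₃ + T.ncard := by positivity
    nlinarith

end Pool.Agent.H38.AT
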