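import Pool.Agent.H38.AT.TRI

/-!
# Board `alt_modules`, module MUL: the numbers with given radical
-/

set_option autoImplicit false

open Pool.Agent.H38.AE.Statement (Admissible radical)
open Pool.Agent.H38.PS (pd)
open Finset

namespace Pool.Agent.H38.AT

theorem pow_omega {D e : ℝ} (hD : 1 ≤ D) (he : 0 < e) : ∃ C : ℝ, 1 ≤ C ∧ ∀ P : Finset ℕ,
    (∀ p ∈ P, p.Prime) → D ^ P.card ≤ C * (pd P : ℝ) ^ e := by
  obtain ⟨L, hL⟩ : ∃ L : ℕ, L = ⌈D ^ (1 / e)⌉₊ := ⟨_, rfl⟩
  refine ⟨D ^ (L + 1), one_le_pow₀ hD, fun P hP => ?_⟩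
  have hD0 : 0 < D := by linarith
  have h1 : (P.filter fun p => p ≤ L).card ≤ L + 1 := by
    have h2 : P.filter (fun p => p ≤ L) ⊆ Finset.range (L + 1) := fun p hp =>
      Finset.mem_range.2 (Nat.lt_succ_of_le (Finset.mem_filter.1 hp).2)
    exact (Finset.card_le_card h2).trans (le_of_eq (Finset.card_range _))
  have h2 : P.card = (P.filter fun p => p ≤ L).card + (P.filter fun p => ¬ p ≤ L).card :=
    (Finset.card_filter_add_card_filter_not _).symm
  have h3 : D ^ (P.filter fun p => ¬ p ≤ L).card ≤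
      ∏ p ∈ P.filter (fun p => ¬ p ≤ L), (p : ℝ) ^ e := by
    rw [← Finset.prod_const]
    refine Finset.prod_le_prod (fun _ _ => hD0.le) fun p hp => ?_
    have h4 : L ≤ p := (not_le.1 (Finset.mem_filter.1 hp).2).le
    have h5 : D ^ (1 / e) ≤ (p : ℝ) := by
      refine (Nat.le_ceil _).trans ?_
      rw [← hL]
      exact_mod_cast h4
    calc D = (D ^ (1 / e)) ^ e := by
          rw [← Real.rpow_mul hD0.le, one_div_mul_cancel he.ne', Real.rpow_one]
      _ ≤ (p : ℝ) ^ e := Real.rpow_le_rpow (by positivity) h5 he.le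
  have h4 : ∏ p ∈ P.filter (fun p => ¬ p ≤ L), (p : ℝ) ^ e ≤ ∏ p ∈ P, (p : ℝ) ^ e := by
    rw [← Finset.prod_filter_mul_prod_filter_not P (fun p => p ≤ L)]
    have h5 : (1 : ℝ) ≤ ∏ p ∈ P.filter (fun p => p ≤ L), (p : ℝ) ^ e := by
      calc (1 : ℝ) = ∏ _p ∈ P.filter (fun p => p ≤ L), (1 : ℝ) := Finset.prod_const_one.symm
        _ ≤ _ := by
            refine Finset.prod_le_prod (fun _ _ => zero_le_one) fun p hp => ?_
            exact Real.one_le_rpow
              (by exact_mod_cast (hP p (Finset.mem_filter.1 hp).1).one_lt.le) he.le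
    exact le_mul_of_one_le_left (Finset.prod_nonneg fun p _ => by positivity) h5
  have h5 : ∏ p ∈ P, (p : ℝ) ^ e = (pd P : ℝ) ^ e := by
    unfold pd
    rw [Real.finsetProd_rpow _ _ fun p _ => Nat.cast_nonneg p]
    push_cast
    rfl
  rw [h2, pow_add, ← h5]
  exact mul_le_mul (pow_le_pow_right₀ hD h1) (h3.trans h4) (by positivity) (by positivity)

theorem geo_le {q : ℝ} (hq0 : 0 < q) (hq1 : q < 1) (E : ℕ) :
    ∑ e ∈ Finset.Icc 1 E, q ^ e ≤ q / (1 - q) := by
  have h1 : ∀ E : ℕ, (∑ e ∈ Finset.Icc 1 E, q ^ e) * (1 - q) = q - q ^ (E + 1) := by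
    intro E
    induction E with
    | zero => simp
    | succ E ih =>
      rw [Finset.sum_Icc_succ_top (by omega), add_mul, ih]
      ring
  rw [le_div_iff₀ (by linarith), h1]
  have : 0 ≤ q ^ (E + 1) := by positivity
  linarith

/-- a weighted sum over numbers with given set of prime factors -/
theorem sum_rpow {t : ℝ} (ht : 0 < t) (P : Finset ℕ) (hP : ∀ p ∈ P, p.Prime) (M : Finset ℕ)
    (hM : ∀ m ∈ M, m ≠ 0 ∧ m.primeFactors = P) :
    ∑ m ∈ M, (m : ℝ) ^ (-t) ≤ (1 / (t * Real.log 2)) ^ P.card := by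
  classical
  obtain ⟨E, hE⟩ : ∃ E : ℕ, ∀ m ∈ M, ∀ p, m.factorization p ≤ E := by
    refine ⟨M.sup id, fun m hm p => ?_⟩
    have h1 : m ≤ M.sup id := Finset.le_sup (f := id) hm
    exact (Nat.factorization_lt p (hM m hm).1).le.trans h1
  have hlog2 : 0 < Real.log 2 := Real.log_pos (by norm_num)
  set g : ℕ → (∀ p ∈ P, ℕ) := fun m p _ => m.factorization p with hg
  have hval : ∀ m ∈ M, (m : ℝ) ^ (-t) =
      ∏ x ∈ P.attach, (((x.1 : ℕ) : ℝ) ^ (-t)) ^ (g m x.1 x.2) := by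
    intro m hm
    obtain ⟨h0, h1⟩ := hM m hm
    have h2 : (m : ℝ) = ∏ p ∈ P, (p : ℝ) ^ (m.factorization p) := by
      conv_lhs => rw [← Nat.prod_factorization_pow_eq_self h0]
      rw [Finsupp.prod, Nat.support_factorization, h1]
      push_cast
      rfl
    rw [Finset.prod_attach P fun p => (((p : ℕ) : ℝ) ^ (-t)) ^ (m.factorization p), h2,
      ← Real.finsetProd_rpow _ _ fun p _ => by positivity]
    refine Finset.prod_congr rfl fun p _ => ?_
    rw [← Real.rpow_natCast, ← Real.rpow_mul (Nat.cast_nonneg p), ← Real.rpow_natCast,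
      ← Real.rpow_mul (Nat.cast_nonneg p), mul_comm]
  have hinj : Set.InjOn g M := by
    intro m hm m' hm' h
    obtain ⟨h0, h1⟩ := hM m hm
    obtain ⟨h0', h1'⟩ := hM m' hm'
    refine Nat.eq_of_factorization_eq h0 h0' fun p => ?_
    by_cases hp : p ∈ P
    · exact congrFun (congrFun h p) hp
    · have e1 : m.factorization p = 0 := by
        rw [← Nat.support_factorization, ] at h1
        by_contra hc
        exact hp (h1 ▸ Finsupp.mem_support_iff.2 hc)
      have e2 : m'.factorization p = 0 := by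
        rw [← Nat.support_factorization] at h1'
        by_contra hc
        exact hp (h1' ▸ Finsupp.mem_support_iff.2 hc)
      rw [e1, e2]
  have hmem : ∀ m ∈ M, g m ∈ P.pi fun _ => Finset.Icc 1 E := by
    intro m hm
    rw [Finset.mem_pi]
    intro p hp
    rw [Finset.mem_Icc]
    refine ⟨?_, hE m hm p⟩
    obtain ⟨h0, h1⟩ := hM m hm
    exact (hP p hp).factorization_pos_of_dvd h0 (Nat.dvd_of_mem_primeFactors (h1 ▸ hp))
  calc ∑ m ∈ M, (m : ℝ) ^ (-t)
      = ∑ m ∈ M, ∏ x ∈ P.attach, (((x.1 : ℕ) : ℝ) ^ (-t)) ^ (g m x.1 x.2) :=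
        Finset.sum_congr rfl hval
    _ = ∑ f ∈ M.image g, ∏ x ∈ P.attach, (((x.1 : ℕ) : ℝ) ^ (-t)) ^ (f x.1 x.2) := by
        rw [Finset.sum_image hinj]
    _ ≤ ∑ f ∈ P.pi (fun _ => Finset.Icc 1 E),
          ∏ x ∈ P.attach, (((x.1 : ℕ) : ℝ) ^ (-t)) ^ (f x.1 x.2) :=
        Finset.sum_le_sum_of_subset_of_nonneg (Finset.image_subset_iff.2 hmem)
          fun f _ _ => Finset.prod_nonneg fun x _ => by positivity
    _ = ∏ p ∈ P, ∑ e ∈ Finset.Icc 1 E, ((p : ℝ) ^ (-t)) ^ e := by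
        rw [Finset.prod_sum]
    _ ≤ ∏ _p ∈ P, (1 / (t * Real.log 2)) := by
        refine Finset.prod_le_prod (fun p _ => Finset.sum_nonneg fun e _ => by positivity)
          fun p hp => ?_
        have hp2 : (2 : ℝ) ≤ p := by exact_mod_cast (hP p hp).two_le
        have hq0 : 0 < (p : ℝ) ^ (-t) := Real.rpow_pos_of_pos (by linarith) _
        have h1 : Real.exp (t * Real.log p) = ((p : ℝ) ^ (-t))⁻¹ := by
          rw [Real.rpow_neg (by linarith), inv_inv, Real.rpow_def_of_pos (by linarith), mul_comm]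
        have h2 : t * Real.log 2 ≤ ((p : ℝ) ^ (-t))⁻¹ - 1 := by
          have h3 := Real.add_one_le_exp (t * Real.log p)
          have h4 : t * Real.log 2 ≤ t * Real.log p :=
            mul_le_mul_of_nonneg_left (Real.log_le_log (by norm_num) hp2) ht.le
          linarith
        have ht2 : 0 < t * Real.log 2 := mul_pos ht hlog2
        have hq1 : (p : ℝ) ^ (-t) < 1 := by
          have h5 : 1 < ((p : ℝ) ^ (-t))⁻¹ := by linarith
          exact (one_lt_inv₀ hq0).1 h5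
        refine (geo_le hq0 hq1 E).trans ?_
        have h6 : (p : ℝ) ^ (-t) / (1 - (p : ℝ) ^ (-t)) = 1 / (((p : ℝ) ^ (-t))⁻¹ - 1) := by
          have h7 : (1 : ℝ) - (p : ℝ) ^ (-t) ≠ 0 := by linarith
          field_simp
        rw [h6]
        exact one_div_le_one_div_of_le ht2 h2
    _ = _ := by rw [Finset.prod_const]

theorem pf_MUL : T_MUL := by
  classical
  intro η hη
  have hlog2 : 0 < Real.log 2 := Real.log_pos (by norm_num)
  obtain ⟨e, he⟩ : ∃ e, e = η / 2 := ⟨_, rfl⟩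
  have he0 : 0 < e := by rw [he]; positivity
  obtain ⟨D, hD⟩ : ∃ D, D = max 1 (1 / (e * Real.log 2)) := ⟨_, rfl⟩
  have hD1 : 1 ≤ D := by rw [hD]; exact le_max_left _ _
  have hD2 : 1 / (e * Real.log 2) ≤ D := by rw [hD]; exact le_max_right _ _
  obtain ⟨C, hC, hω⟩ := pow_omega hD1 he0
  refine ⟨C, hC, fun X B r hX hB hr => ?_⟩
  have hX0 : 0 < X := by linarith
  have hX1 : 1 ≤ X := by linarith
  have hpos : 0 ≤ C * X ^ η * (2 + B) ^ r.primeFactors.card := by positivity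
  set S : Set ℕ := {m : ℕ | m ≠ 0 ∧ pd m.primeFactors = r ∧ Real.log m ≤ B * Real.log X} with hS
  have hle : ∀ m ∈ S, (m : ℝ) ≤ X ^ B := by
    rintro m ⟨h1, -, h3⟩
    have h4 : (0 : ℝ) < m := by exact_mod_cast Nat.pos_of_ne_zero h1
    rw [Real.rpow_def_of_pos hX0, ← Real.exp_log h4]
    exact Real.exp_le_exp.2 (by linarith [mul_comm (Real.log X) B])
  have hfin : S.Finite := by
    refine (Set.finite_Icc 0 ⌊X ^ B⌋₊).subset fun m hm => ?_
    exact ⟨Nat.zero_le _, Nat.le_floor (hle m hm)⟩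
  refine ⟨hfin, ?_⟩
  rcases S.eq_empty_or_nonempty with h0 | ⟨m₀, hm₀⟩
  · rw [h0, Set.ncard_empty, Nat.cast_zero]
    exact hpos
  have hprm : ∀ p ∈ r.primeFactors, p.Prime := fun p hp => Nat.prime_of_mem_primeFactors hp
  have hpf : ∀ m ∈ S, m.primeFactors = r.primeFactors := by
    rintro m ⟨-, h2, -⟩
    rw [← h2, pf_pd fun p hp => Nat.prime_of_mem_primeFactors hp]
  have hr0 : pd r.primeFactors = r := by
    have h1 := hpf m₀ hm₀
    rw [← h1]
    exact hm₀.2.1
  obtain ⟨t, ht⟩ : ∃ t, t = e / (1 + B) := ⟨_, rfl⟩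
  have h1B : 0 < 1 + B := by linarith
  have ht0 : 0 < t := by rw [ht]; positivity
  have htB : t * B ≤ e := by
    rw [ht, div_mul_eq_mul_div, div_le_iff₀ h1B]
    nlinarith
  have hsum := sum_rpow ht0 r.primeFactors hprm hfin.toFinset fun m hm =>
    ⟨(hfin.mem_toFinset.1 hm).1, hpf m (hfin.mem_toFinset.1 hm)⟩
  have hlow : (S.ncard : ℝ) * X ^ (-(t * B)) ≤ ∑ m ∈ hfin.toFinset, (m : ℝ) ^ (-t) := by
    rw [Set.ncard_eq_toFinset_card S hfin, ← nsmul_eq_mul, ← Finset.sum_const]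
    refine Finset.sum_le_sum fun m hm => ?_
    have h2 := hfin.mem_toFinset.1 hm
    have h3 : (0 : ℝ) < m := by exact_mod_cast Nat.pos_of_ne_zero h2.1
    have h4 : X ^ (-(t * B)) = (X ^ B) ^ (-t) := by
      rw [← Real.rpow_mul hX0.le]
      congr 1
      ring
    rw [h4, Real.rpow_neg (by positivity), Real.rpow_neg h3.le]
    exact inv_anti₀ (Real.rpow_pos_of_pos h3 _) (Real.rpow_le_rpow h3.le (hle m h2) ht0.le)
  have hXt : (S.ncard : ℝ) ≤ X ^ (t * B) * (1 / (t * Real.log 2)) ^ r.primeFactors.card := by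
    have h2 := hlow.trans hsum
    rw [Real.rpow_neg hX0.le, ← div_eq_mul_inv, div_le_iff₀ (Real.rpow_pos_of_pos hX0 _)] at h2
    linarith
  have h5 : X ^ (t * B) ≤ X ^ e := Real.rpow_le_rpow_of_exponent_le hX1 htB
  have h6 : 1 / (t * Real.log 2) ≤ D * (2 + B) := by
    have h7 : 1 / (t * Real.log 2) = (1 / (e * Real.log 2)) * (1 + B) := by
      rw [ht]
      field_simp
    rw [h7]
    exact mul_le_mul hD2 (by linarith) h1B.le (by linarith)
  have h7 : (1 / (t * Real.log 2)) ^ r.primeFactors.card ≤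
      D ^ r.primeFactors.card * (2 + B) ^ r.primeFactors.card := by
    rw [← mul_pow]
    exact pow_le_pow_left₀ (by positivity) h6 _
  have h8 : D ^ r.primeFactors.card ≤ C * X ^ e := by
    refine (hω r.primeFactors hprm).trans ?_
    rw [hr0]
    exact mul_le_mul_of_nonneg_left (Real.rpow_le_rpow (Nat.cast_nonneg _) hr he0.le)
      (by linarith)
  have hXe : X ^ e * X ^ e = X ^ η := by
    rw [← Real.rpow_add hX0]
    congr 1
    rw [he]
    ring
  have hXe0 : 0 ≤ X ^ e := by positivity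
  calc (S.ncard : ℝ) ≤ X ^ (t * B) * (1 / (t * Real.log 2)) ^ r.primeFactors.card := hXt
    _ ≤ X ^ e * (D ^ r.primeFactors.card * (2 + B) ^ r.primeFactors.card) :=
        mul_le_mul h5 h7 (by positivity) hXe0
    _ ≤ X ^ e * ((C * X ^ e) * (2 + B) ^ r.primeFactors.card) :=
        mul_le_mul_of_nonneg_left (mul_le_mul_of_nonneg_right h8 (by positivity)) hXe0
    _ = C * (X ^ e * X ^ e) * (2 + B) ^ r.primeFactors.card := by ring
    _ = _ := by rw [hXe]

end Pool.Agent.H38.AT
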