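import Pool.Agent.H38.AT.TRI

/-!
# Board `alt_modules`, module NRN: the tuples which are not reduced
-/

set_option autoImplicit false

open Pool.Agent.H38.AE.Statement (Admissible radical)
open Pool.Agent.H38.PS (pd)
open Finset

namespace Pool.Agent.H38.AT

theorem primes_prn {n : ℕ} {x : Fin n → ℤ} (hx : Admissible x) :
    (prn x).primeFactors = univ.biUnion fun l => (x l).natAbs.primeFactors := by
  ext p
  rw [Finset.mem_biUnion]
  constructor
  · intro hp
    have hpp := Nat.prime_of_mem_primeFactors hp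
    have h1 : ((p : ℕ) : ℤ) ∣ ∏ i, x i := Int.natCast_dvd.2 (Nat.dvd_of_mem_primeFactors hp)
    obtain ⟨l, -, hl⟩ := (Prime.dvd_finsetProd_iff (Nat.prime_iff_prime_int.1 hpp) x).1 h1
    exact ⟨l, Finset.mem_univ l, Nat.mem_primeFactors.2 ⟨hpp, Int.natCast_dvd.1 hl,
      Int.natAbs_ne_zero.2 (hx.1 l)⟩⟩
  · rintro ⟨l, -, hl⟩
    exact sub_prn hx l hl

theorem pd_filter_prn {n : ℕ} {x : Fin n → ℤ} (hx : Admissible x) (P : ℕ → Prop)
    [DecidablePred P] : pd ((prn x).primeFactors.filter P) =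
      ∏ i, pd ((x i).natAbs.primeFactors.filter P) := by
  unfold pd
  rw [primes_prn hx, Finset.filter_biUnion, Finset.prod_biUnion]
  intro i _ j _ hij
  exact (disj_n hx hij).mono (Finset.filter_subset _ _) (Finset.filter_subset _ _)

theorem pd_prn {n : ℕ} {x : Fin n → ℤ} (hx : Admissible x) :
    pd (prn x).primeFactors = ∏ i, pd (x i).natAbs.primeFactors := by
  have h := pd_filter_prn hx (fun _ => True)
  simpa using h

theorem union_bound {α ι : Type} [Fintype ι] (T : Set α) (A : ι → Set α) (D : ℝ)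
    (hA : ∀ i, (A i).Finite ∧ ((A i).ncard : ℝ) ≤ D) (h : T ⊆ ⋃ i, A i) :
    T.Finite ∧ (T.ncard : ℝ) ≤ Fintype.card ι * D := by
  classical
  have hU : (⋃ i, A i).Finite := Set.finite_iUnion fun i => (hA i).1
  have hT : T.Finite := hU.subset h
  refine ⟨hT, ?_⟩
  have h1 : T.ncard ≤ ∑ i, (A i).ncard := by
    have h2 : hT.toFinset ⊆ univ.biUnion fun i => (hA i).1.toFinset := by
      intro x hx
      obtain ⟨i, hi⟩ := Set.mem_iUnion.1 (h (hT.mem_toFinset.1 hx))
      exact Finset.mem_biUnion.2 ⟨i, Finset.mem_univ i, (hA i).1.mem_toFinset.2 hi⟩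
    rw [Set.ncard_eq_toFinset_card T hT]
    refine (Finset.card_le_card h2).trans (Finset.card_biUnion_le.trans (le_of_eq ?_))
    exact Finset.sum_congr rfl fun i _ => (Set.ncard_eq_toFinset_card _ (hA i).1).symm
  calc (T.ncard : ℝ) ≤ ∑ i, ((A i).ncard : ℝ) := by exact_mod_cast h1
    _ ≤ ∑ _i : ι, D := Finset.sum_le_sum fun i _ => (hA i).2
    _ = Fintype.card ι * D := by rw [Finset.sum_const, Finset.card_univ, nsmul_eq_mul]

theorem pf_NRN (hTRI : T_TRI) (hRKN : Pool.Agent.H38.AG.T_RKN) (hOMG : Pool.Agent.H38.AG.T_OMG) :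
    T_NRN := by
  classical
  intro n ρ' hn hρ'
  have hnR : (3 : ℝ) ≤ n := by exact_mod_cast hn
  have hn0 : (0 : ℝ) < n := by linarith
  have hn1 : (0 : ℝ) < (n : ℝ) - 1 := by linarith
  obtain ⟨K, δ, X₀, hK, hδ, hδρ, hX₀, hO⟩ := hOMG ρ' hρ'
  obtain ⟨d, hd⟩ : ∃ d, d = 3 * δ / n := ⟨_, rfl⟩
  have hd0 : 0 < d := by rw [hd]; positivity
  obtain ⟨CR, hCR, hR⟩ := hRKN K d (by linarith) hd0
  obtain ⟨τ, hτ⟩ : ∃ τ, τ = d / (4 * K) := ⟨_, rfl⟩
  have hτ0 : 0 < τ := by
    rw [hτ]
    have : 0 < K := by linarith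
    positivity
  obtain ⟨c', hc'⟩ : ∃ c', c' = min (min ρ' (1 / (2 * n))) (τ / 4) := ⟨_, rfl⟩
  have hc'0 : 0 < c' := by
    rw [hc']
    exact lt_min (lt_min hρ' (by positivity)) (by positivity)
  have hc'1 : c' ≤ ρ' := by rw [hc']; exact (min_le_left _ _).trans (min_le_left _ _)
  have hc'2 : c' ≤ 1 / (2 * n) := by rw [hc']; exact (min_le_left _ _).trans (min_le_right _ _)
  have hc'3 : c' ≤ τ / 4 := by rw [hc']; exact min_le_right _ _
  obtain ⟨e, he⟩ : ∃ e, e = c' / (4 * n) := ⟨_, rfl⟩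
  have he0 : 0 < e := by rw [he]; positivity
  obtain ⟨C, hC, hT⟩ := hTRI n e (by omega) he0
  refine ⟨e, c' / (2 * n), Fintype.card (Fin n × Fin n × Bool) * (C * (1 + CR)), max X₀ 16, he0,
    by positivity, ?_, le_max_right _ _, fun X hX => ?_⟩
  · have : 0 < Fintype.card (Fin n × Fin n × Bool) := by
      have : Nonempty (Fin n) := ⟨⟨0, by omega⟩⟩
      exact Fintype.card_pos
    positivity
  have hX₀' : X₀ ≤ X := (le_max_left _ _).trans hX
  have hX16 : 16 ≤ X := (le_max_right _ _).trans hX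
  have hX0 : 0 < X := by linarith
  have hX1 : 1 ≤ X := by linarith
  have hl0 : 0 < Real.log X := Real.log_pos (by linarith)
  have h1n : 1 / (n : ℝ) ≤ 1 / 3 := one_div_le_one_div_of_le (by norm_num) hnR
  have h2n : 1 / (2 * (n : ℝ)) ≤ 1 / 6 := by
    have := one_div_le_one_div_of_le (by norm_num : (0 : ℝ) < 6) (by linarith : 6 ≤ 2 * (n : ℝ))
    exact this
  have hcn : c' / ((n : ℝ) - 1) ≤ 1 / 12 := by
    rw [div_le_iff₀ hn1]
    linarith
  -- the two kinds of classes
  obtain ⟨Za, hZa⟩ : ∃ Za, Za = X ^ (1 - 1 / (n : ℝ) - c' / (n - 1)) := ⟨_, rfl⟩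
  obtain ⟨Zb, hZb⟩ : ∃ Zb, Zb = X ^ (1 - 1 / (n : ℝ) + c') := ⟨_, rfl⟩
  obtain ⟨S, hS⟩ : ∃ S : Set ℕ, S = {s | Squarefree s ∧
    X ^ d ≤ (pd (s.primeFactors.filter fun p => (p : ℝ) ≤ Real.log X ^ K) : ℝ)} := ⟨_, rfl⟩
  have hZa1 : 1 ≤ Za := by rw [hZa]; exact Real.one_le_rpow hX1 (by linarith)
  have hZaX : Za ≤ X := by
    rw [hZa]
    have h0 : 0 ≤ c' / ((n : ℝ) - 1) := by positivity
    have h00 : 0 ≤ 1 / (n : ℝ) := by positivity
    calc X ^ (1 - 1 / (n : ℝ) - c' / (n - 1)) ≤ X ^ (1 : ℝ) :=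
          Real.rpow_le_rpow_of_exponent_le hX1 (by linarith)
      _ = X := Real.rpow_one X
  have hZb1 : 1 ≤ Zb := by rw [hZb]; exact Real.one_le_rpow hX1 (by linarith)
  have hZbX : Zb ≤ X := by
    rw [hZb]
    have h3 : c' ≤ 1 / (n : ℝ) := hc'2.trans (by
      exact one_div_le_one_div_of_le hn0 (by linarith))
    calc X ^ (1 - 1 / (n : ℝ) + c') ≤ X ^ (1 : ℝ) :=
          Real.rpow_le_rpow_of_exponent_le hX1 (by linarith)
      _ = X := Real.rpow_one X
  have hSa : ∀ Y : ℝ, 1 ≤ Y → (((Set.univ : Set ℕ) ∩ Set.Icc 1 ⌊Y⌋₊).ncard : ℝ) ≤ 1 * Y := by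
    intro Y hY
    have h1 : (Set.univ : Set ℕ) ∩ Set.Icc 1 ⌊Y⌋₊ = ((Finset.Icc 1 ⌊Y⌋₊ : Finset ℕ) : Set ℕ) := by
      rw [Set.univ_inter, Finset.coe_Icc]
    rw [h1, Set.ncard_coe_finset, Nat.card_Icc, one_mul]
    simpa using Nat.floor_le (by linarith : 0 ≤ Y)
  have hSb : ∀ Y : ℝ, 1 ≤ Y → ((S ∩ Set.Icc 1 ⌊Y⌋₊).ncard : ℝ) ≤ (CR * X ^ (-τ)) * Y := by
    intro Y hY
    have h1 := hR X Y (by linarith) (by linarith)
    have h2 : S ∩ Set.Icc 1 ⌊Y⌋₊ = (((Finset.Icc 1 ⌊Y⌋₊).filter fun s => Squarefree s ∧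
        X ^ d ≤ (pd (s.primeFactors.filter fun p => (p : ℝ) ≤ Real.log X ^ K) : ℝ) :
          Finset ℕ) : Set ℕ) := by
      ext s
      rw [hS]
      simp only [Set.mem_inter_iff, Set.mem_ofPred_eq, Set.mem_Icc, Finset.coe_filter,
        Finset.mem_Icc]
      tauto
    rw [h2, Set.ncard_coe_finset]
    refine h1.trans (le_of_eq ?_)
    rw [hτ]
    ring
  set F : Fin n × Fin n × Bool → Set (Fin n → ℤ) := fun i =>
    if i.2.1 ≠ i.1 then
      (if i.2.2 then {x : Fin n → ℤ | Admissible x ∧ (pd (prn x).primeFactors : ℝ) ≤ X ∧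
        Cd e X x ∧ pd (x i.2.1).natAbs.primeFactors ∈ (Set.univ : Set ℕ) ∧
        ∏ l ∈ Finset.univ.erase i.1, (pd (x l).natAbs.primeFactors : ℝ) ≤ Za}
      else {x : Fin n → ℤ | Admissible x ∧ (pd (prn x).primeFactors : ℝ) ≤ X ∧
        Cd e X x ∧ pd (x i.2.1).natAbs.primeFactors ∈ S ∧
        ∏ l ∈ Finset.univ.erase i.1, (pd (x l).natAbs.primeFactors : ℝ) ≤ Zb})
    else ∅ with hF
  have hexp : c' / (2 * n) ≤ c' / ((n : ℝ) - 1) - (e + e) := by
    have h1 : c' / (n : ℝ) ≤ c' / ((n : ℝ) - 1) :=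
      div_le_div_of_nonneg_left hc'0.le hn1 (by linarith)
    have h2 : e + e = c' / (2 * n) := by rw [he]; field_simp; ring
    have h3 : c' / (n : ℝ) = c' / (2 * n) + c' / (2 * n) := by field_simp; ring
    linarith
  have hee : e + e ≤ c' := by
    have h2 : e + e = c' / (2 * n) := by rw [he]; field_simp; ring
    rw [h2, div_le_iff₀ (by positivity)]
    nlinarith
  have hc2n : c' / (2 * n) ≤ c' := by
    rw [div_le_iff₀ (by positivity)]
    nlinarith
  have hFb : ∀ i, (F i).Finite ∧ ((F i).ncard : ℝ) ≤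
      C * (1 + CR) * X ^ (1 - 1 / (n : ℝ) - c' / (2 * n)) := by
    rintro ⟨k, l₀, b⟩
    have hpos : 0 ≤ C * (1 + CR) * X ^ (1 - 1 / (n : ℝ) - c' / (2 * n)) := by positivity
    simp only [hF]
    by_cases hlk : l₀ ≠ k
    · rw [if_pos hlk]
      cases b with
      | true =>
        obtain ⟨h1, h2⟩ := hT X Za e 1 k l₀ Set.univ (by linarith) he0.le zero_le_one hZa1 hZaX
          hlk hSa
        refine ⟨h1, h2.trans ?_⟩
        rw [hZa, mul_one, mul_assoc, ← Real.rpow_add hX0]
        have h3 : X ^ (1 - 1 / (n : ℝ) - c' / (n - 1) + (e + e)) ≤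
            X ^ (1 - 1 / (n : ℝ) - c' / (2 * n)) :=
          Real.rpow_le_rpow_of_exponent_le hX1 (by linarith)
        calc C * X ^ (1 - 1 / (n : ℝ) - c' / (n - 1) + (e + e))
            ≤ C * X ^ (1 - 1 / (n : ℝ) - c' / (2 * n)) := mul_le_mul_of_nonneg_left h3 hC.le
          _ ≤ C * (1 + CR) * X ^ (1 - 1 / (n : ℝ) - c' / (2 * n)) := by
              refine mul_le_mul_of_nonneg_right ?_ (by positivity)
              nlinarith
      | false =>
        obtain ⟨h1, h2⟩ := hT X Zb e (CR * X ^ (-τ)) k l₀ S (by linarith) he0.le (by positivity)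
          hZb1 hZbX hlk hSb
        refine ⟨h1, h2.trans ?_⟩
        rw [hZb]
        have h3 : C * (CR * X ^ (-τ)) * X ^ (1 - 1 / (n : ℝ) + c') * X ^ (e + e) =
            C * CR * X ^ (-τ + (1 - 1 / (n : ℝ) + c') + (e + e)) := by
          have h5 : X ^ (-τ) * X ^ (1 - 1 / (n : ℝ) + c') * X ^ (e + e) =
              X ^ (-τ + (1 - 1 / (n : ℝ) + c') + (e + e)) := by
            rw [← Real.rpow_add hX0, ← Real.rpow_add hX0]
          rw [← h5]
          ring
        rw [h3]
        have h4 : X ^ (-τ + (1 - 1 / (n : ℝ) + c') + (e + e)) ≤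
            X ^ (1 - 1 / (n : ℝ) - c' / (2 * n)) :=
          Real.rpow_le_rpow_of_exponent_le hX1 (by linarith)
        calc C * CR * X ^ (-τ + (1 - 1 / (n : ℝ) + c') + (e + e))
            ≤ C * CR * X ^ (1 - 1 / (n : ℝ) - c' / (2 * n)) :=
              mul_le_mul_of_nonneg_left h4 (by positivity)
          _ ≤ C * (1 + CR) * X ^ (1 - 1 / (n : ℝ) - c' / (2 * n)) := by
              refine mul_le_mul_of_nonneg_right ?_ (by positivity)
              nlinarith
    · rw [if_neg hlk]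
      refine ⟨Set.finite_empty, ?_⟩
      rw [Set.ncard_empty, Nat.cast_zero]
      exact hpos
  have hcov : {x : Fin n → ℤ | Admissible x ∧ (pd (prn x).primeFactors : ℝ) ≤ X ∧ Cd e X x ∧
      x ∉ RdN n X ρ'} ⊆ ⋃ i, F i := by
    rintro x ⟨hx, hxX, hCd, hxR⟩
    rw [Set.mem_iUnion]
    have hpos : ∀ l, (1 : ℝ) ≤ pd (x l).natAbs.primeFactors := fun l => by
      have : 1 ≤ pd (x l).natAbs.primeFactors :=
        Finset.prod_pos fun p hp => (Nat.prime_of_mem_primeFactors hp).pos
      exact_mod_cast this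
    have hprod : ∏ l, (pd (x l).natAbs.primeFactors : ℝ) ≤ X := by
      rw [← Nat.cast_prod, ← pd_prn hx]
      exact hxX
    have hsum : ∑ l, Real.log (pd (x l).natAbs.primeFactors : ℝ) ≤ Real.log X := by
      rw [← Real.log_prod fun l _ => by linarith [hpos l]]
      exact Real.log_le_log (Finset.prod_pos fun l _ => by linarith [hpos l]) hprod
    have hlog : ∀ l, 0 ≤ Real.log (pd (x l).natAbs.primeFactors : ℝ) := fun l =>
      Real.log_nonneg (hpos l)
    have herase : ∀ (k : Fin n) (z : ℝ), ∑ l ∈ Finset.univ.erase k,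
        Real.log (pd (x l).natAbs.primeFactors : ℝ) ≤ z * Real.log X →
        ∏ l ∈ Finset.univ.erase k, (pd (x l).natAbs.primeFactors : ℝ) ≤ X ^ z := by
      intro k z hz
      have h1 : 0 < ∏ l ∈ Finset.univ.erase k, (pd (x l).natAbs.primeFactors : ℝ) :=
        Finset.prod_pos fun l _ => by linarith [hpos l]
      rw [← Real.log_le_log_iff h1 (Real.rpow_pos_of_pos hX0 _), Real.log_rpow hX0,
        Real.log_prod fun l _ => by linarith [hpos l]]
      exact hz
    by_cases ha : ∃ i, (pd (x i).natAbs.primeFactors : ℝ) < X ^ (1 / (n : ℝ) - c')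
    · obtain ⟨i, hi⟩ := ha
      have hne : (Finset.univ.erase i : Finset (Fin n)).Nonempty := by
        rw [← Finset.card_pos, Finset.card_erase_of_mem (Finset.mem_univ i), Finset.card_univ,
          Fintype.card_fin]
        omega
      obtain ⟨k, hk, hmax⟩ := Finset.exists_max_image (Finset.univ.erase i)
        (fun l => Real.log (pd (x l).natAbs.primeFactors : ℝ)) hne
      have hki : k ≠ i := Finset.ne_of_mem_erase hk
      refine ⟨(k, i, true), ?_⟩
      simp only [hF]
      rw [if_pos hki.symm, if_pos trivial]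
      refine ⟨hx, hxX, hCd, Set.mem_univ _, ?_⟩
      rw [hZa]
      refine herase k _ ?_
      have h1 : ∑ l ∈ Finset.univ.erase i, Real.log (pd (x l).natAbs.primeFactors : ℝ) ≤
          ((n : ℝ) - 1) * Real.log (pd (x k).natAbs.primeFactors : ℝ) := by
        refine (Finset.sum_le_sum fun l hl => hmax l hl).trans (le_of_eq ?_)
        rw [Finset.sum_const, Finset.card_erase_of_mem (Finset.mem_univ i), Finset.card_univ,
          Fintype.card_fin, nsmul_eq_mul, Nat.cast_sub (by omega), Nat.cast_one]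
      have h2 := Finset.add_sum_erase Finset.univ
        (fun l => Real.log (pd (x l).natAbs.primeFactors : ℝ)) (Finset.mem_univ i)
      have h3 := Finset.add_sum_erase Finset.univ
        (fun l => Real.log (pd (x l).natAbs.primeFactors : ℝ)) (Finset.mem_univ k)
      have h4 : Real.log (pd (x i).natAbs.primeFactors : ℝ) ≤
          (1 / (n : ℝ) - c') * Real.log X := by
        rw [← Real.log_rpow hX0]
        exact Real.log_le_log (by linarith [hpos i]) hi.le
      obtain ⟨s, hs⟩ : ∃ s, s = ∑ l, Real.log (pd (x l).natAbs.primeFactors : ℝ) := ⟨_, rfl⟩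
      obtain ⟨a, ha'⟩ : ∃ a, a = Real.log (pd (x i).natAbs.primeFactors : ℝ) := ⟨_, rfl⟩
      obtain ⟨b, hb'⟩ : ∃ b, b = Real.log (pd (x k).natAbs.primeFactors : ℝ) := ⟨_, rfl⟩
      rw [← hs] at h2 h3 hsum
      rw [← ha'] at h2 h4
      rw [← hb'] at h1 h3
      have h5 : ∑ l ∈ Finset.univ.erase k, Real.log (pd (x l).natAbs.primeFactors : ℝ) =
          s - b := by linarith
      rw [h5]
      have h6 : s - a ≤ ((n : ℝ) - 1) * b := by linarith
      have h7 : ((n : ℝ) - 1) * (s - b) ≤ ((n : ℝ) - 2) * Real.log X +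
          (1 / (n : ℝ) - c') * Real.log X := by nlinarith
      have h8 : ((n : ℝ) - 1) * ((1 - 1 / (n : ℝ) - c' / (n - 1)) * Real.log X) =
          ((n : ℝ) - 2) * Real.log X + (1 / (n : ℝ) - c') * Real.log X := by
        field_simp
        ring
      rw [← h8] at h7
      exact le_of_mul_le_mul_left h7 hn1
    · push Not at ha
      have hω : ρ' * Real.log X < ((prn x).primeFactors.card : ℝ) * Real.log (Real.log X) := by
        by_contra hcon
        refine hxR ⟨hx, hxX, fun i => ?_, not_lt.1 hcon⟩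
        exact (Real.rpow_le_rpow_of_exponent_le hX1 (by linarith)).trans (ha i)
      have hsm : X ^ (3 * δ) < (pd ((prn x).primeFactors.filter
          fun p => (p : ℝ) ≤ Real.log X ^ K) : ℝ) := by
        by_contra hcon
        have := hO X (prn x).primeFactors hX₀' (fun p hp => Nat.prime_of_mem_primeFactors hp) hxX
          (not_lt.1 hcon)
        linarith
      obtain ⟨l₀, hl₀⟩ : ∃ l₀, X ^ d ≤ (pd ((x l₀).natAbs.primeFactors.filter
          fun p => (p : ℝ) ≤ Real.log X ^ K) : ℝ) := by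
        by_contra hcon
        push Not at hcon
        have h1 : (pd ((prn x).primeFactors.filter fun p => (p : ℝ) ≤ Real.log X ^ K) : ℝ) ≤
            X ^ (3 * δ) := by
          rw [pd_filter_prn hx, Nat.cast_prod]
          calc ∏ i, (pd ((x i).natAbs.primeFactors.filter
                fun p => (p : ℝ) ≤ Real.log X ^ K) : ℝ) ≤ ∏ _i : Fin n, X ^ d :=
                Finset.prod_le_prod (fun i _ => Nat.cast_nonneg _) fun i _ => (hcon i).le
            _ = X ^ (3 * δ) := by
                rw [Finset.prod_const, Finset.card_univ, Fintype.card_fin, ← Real.rpow_natCast,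
                  ← Real.rpow_mul hX0.le, hd]
                congr 1
                field_simp
        linarith
      obtain ⟨k, hk⟩ : ∃ k : Fin n, l₀ ≠ k := by
        by_contra hcon
        push Not at hcon
        have h1 := hcon ⟨0, by omega⟩
        have h2 := hcon ⟨1, by omega⟩
        rw [h1, Fin.mk.injEq] at h2
        omega
      refine ⟨(k, l₀, false), ?_⟩
      simp only [hF]
      rw [if_pos hk, if_neg (by decide)]
      refine ⟨hx, hxX, hCd, ?_, ?_⟩
      · rw [hS]
        have hprm : ∀ p ∈ (x l₀).natAbs.primeFactors, p.Prime := fun p hp =>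
          Nat.prime_of_mem_primeFactors hp
        refine ⟨?_, ?_⟩
        · unfold pd
          refine Finset.squarefree_prod_of_pairwise_isCoprime (fun a ha b hb hab => ?_)
            fun p hp => (hprm p hp).squarefree
          exact Nat.coprime_iff_isRelPrime.1
            ((Nat.coprime_primes (hprm a ha) (hprm b hb)).2 hab)
        · rw [pf_pd hprm]
          exact hl₀
      · rw [hZb]
        refine herase k _ ?_
        have h3 := Finset.add_sum_erase Finset.univ
          (fun l => Real.log (pd (x l).natAbs.primeFactors : ℝ)) (Finset.mem_univ k)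
        have h4 : (1 / (n : ℝ) - c') * Real.log X ≤
            Real.log (pd (x k).natAbs.primeFactors : ℝ) := by
          rw [← Real.log_rpow hX0]
          exact Real.log_le_log (Real.rpow_pos_of_pos hX0 _) (ha k)
        linarith
  obtain ⟨h1, h2⟩ := union_bound _ F _ hFb hcov
  refine ⟨h1, h2.trans (le_of_eq ?_)⟩
  ring

end Pool.Agent.H38.AT
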