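import Pool.Agent.H38.AG.All
import Pool.Agent.H38.AE.All
import Pool.Agent.H33.AE.N3
import Pool.Agent.H68.AE.N1
import Pool.Agent.H23.AF.All
import Pool.Agent.H38.AT.NRN
import Pool.Agent.H38.AT.MUL
import Pool.Agent.H38.AT.AL2
import Pool.Agent.H14.AT.CVE
import Pool.Agent.H14.AT.NUN
import Pool.Agent.H14.AT.NWC
import Pool.Agent.H14.AT.SLN
import Pool.Agent.H18.AT.ALN
import Pool.Agent.H18.AT.CJN
import Pool.Agent.H18.AT.LWN
import Pool.Agent.H35.AT.CLN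
import Pool.Agent.H36.AT.RGN
import Pool.Agent.H69.AT.COV
import Pool.Agent.H72.AT.CVJ
import Pool.Agent.H72.AT.POL

/-!
# The sharp exponent `1 / n` for almost all admissible `n`-tuples: assembly
-/

set_option autoImplicit false

namespace Pool.Agent.H38.AT

theorem tri : T_TRI := pf_TRI pf_MUL

theorem nrn : T_NRN := pf_NRN tri Pool.Agent.H50.AG.pf_RKN Pool.Agent.H33.AG.pf_OMG

theorem nwc : T_NWC := Pool.Agent.H14.AT.pf_NWC Pool.Agent.H74.AE.A.pf_A Pool.Agent.H23.AF.all_G2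

theorem cln : T_CLN := Pool.Agent.H35.AT.pf_CLN Pool.Agent.H38.AB.nsu Pool.Agent.H38.AB.gem

theorem cjn : T_CJN := Pool.Agent.H18.AT.pf_CJN Pool.Agent.H38.AB.nsu Pool.Agent.H38.AB.hau

theorem cov : T_COV := Pool.Agent.H69.AT.pf_COV Pool.Agent.H14.AT.pf_CVE Pool.Agent.H72.AT.pf_CVJ

theorem pol : T_POL := Pool.Agent.H72.AT.pf_POL nwc cov
  (Pool.Agent.H68.AE.N1.pf_N1 Pool.Agent.H74.AE.A.pf_A)
  (Pool.Agent.H33.AE.pf_N3 Pool.Agent.H74.AE.A.pf_A) Pool.Agent.H38.AE.pf_HA'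

theorem rgn : T_RGN := Pool.Agent.H36.AT.pf_RGN cln cjn Pool.Agent.H14.AT.pf_SLN
  Pool.Agent.H14.AT.pf_NUN

/-- Almost all tuples which satisfy the condition on the number of primes. -/
theorem aln : T_ALN := Pool.Agent.H18.AT.pf_ALN pol rgn nrn

/-- Almost all tuples of height at most `exp ((log X) ^ (2 - κ))`. -/
theorem al2 : T_AL2 := pf_AL2 pol rgn (pf_NR2 (pf_TR2 pf_MUL))

/-- The lower bound for the number of all tuples. -/
theorem lwn : T_LWN := Pool.Agent.H18.AT.pf_LWN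

end Pool.Agent.H38.AT
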