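import Pool.Agent.H38.AT.Stmt
import Pool.Agent.H38.AT.AL2

/-!
# The sharp exponent `1 / n` for almost all admissible `n`-tuples: the final form
-/

set_option autoImplicit false

open Pool.Agent.H38.AE.Statement (Admissible radical)
open Pool.Agent.H38.PS (pd)

namespace Pool.Agent.H38.AT

theorem rad_root_le {n : ℕ} (hn : 3 ≤ n) (x : Fin n → ℤ) (hx : Admissible x) :
    (radical (∏ i, x i) : ℝ) ^ (1 / (n : ℝ)) ≤ (height x : ℝ) := by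
  have hn0 : (0 : ℝ) < n := by
    have : 0 < n := by omega
    exact_mod_cast this
  have h1 : radical (∏ i, x i) ≤ (∏ i, x i).natAbs :=
    Nat.le_of_dvd (Int.natAbs_pos.2 (Finset.prod_ne_zero_iff.2 fun i _ => hx.1 i))
      (Nat.prod_primeFactors_dvd _)
  have h2 : (∏ i, x i).natAbs ≤ height x ^ n := by
    have h0 : (∏ i, x i).natAbs = ∏ i, (x i).natAbs := map_prod Int.natAbsHom x Finset.univ
    rw [h0]
    calc ∏ i, (x i).natAbs ≤ ∏ _i : Fin n, height x :=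
          Finset.prod_le_prod' fun i _ => Finset.le_sup (f := fun i => (x i).natAbs)
            (Finset.mem_univ i)
      _ = height x ^ n := by rw [Finset.prod_const, Finset.card_univ, Fintype.card_fin]
  have h3 : (radical (∏ i, x i) : ℝ) ≤ (height x : ℝ) ^ n := by exact_mod_cast h1.trans h2
  calc (radical (∏ i, x i) : ℝ) ^ (1 / (n : ℝ)) ≤ ((height x : ℝ) ^ n) ^ (1 / (n : ℝ)) :=
        Real.rpow_le_rpow (Nat.cast_nonneg _) h3 (by positivity)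
    _ = height x := by
        rw [← Real.rpow_natCast, ← Real.rpow_mul (Nat.cast_nonneg _), mul_one_div_cancel hn0.ne',
          Real.rpow_one]

theorem glue (hALN : T_ALN) (hAL2 : T_AL2) (hLWN : T_LWN) (n : ℕ) (hn : 3 ≤ n) :
    (∀ x : Fin n → ℤ, Admissible x →
      (radical (∏ i, x i) : ℝ) ^ (1 / (n : ℝ)) ≤ (height x : ℝ)) ∧
    (∀ ε : ℝ, 0 < ε → ∃ ρ δ C : ℝ, 0 < ρ ∧ 0 < δ ∧ 0 < C ∧ ∀ X : ℝ, 2 ≤ X →
      (Violators n (1 / n + ε) ε ρ X).Finite ∧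
      ((Violators n (1 / n + ε) ε ρ X).ncard : ℝ) ≤ C * X ^ (1 - 1 / (n : ℝ) - δ) ∧
      ((Violators n (1 / n + ε) ε ρ X).ncard : ℝ) ≤ C * X ^ (-δ) * (Box n X).ncard) ∧
    (∃ c : ℝ, 0 < c ∧ ∀ X : ℝ, 2 ≤ X → (Box n X).Finite ∧
      c * X ^ (1 - 1 / (n : ℝ)) ≤ ((Box n X).ncard : ℝ)) := by
  obtain ⟨c₀, hc₀, hL⟩ := hLWN n hn
  have hbox : ∀ X : ℝ, 2 ≤ X → c₀ * X ^ (1 - 1 / (n : ℝ)) ≤ ((Box n X).ncard : ℝ) :=
    fun X hX => hL X hX
  refine ⟨fun x hx => rad_root_le hn x hx, fun ε hε => ?_, c₀, hc₀, fun X hX => ⟨?_, hbox X hX⟩⟩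
  · obtain ⟨ρ, c₁, C₁, hρ, hc₁, hC₁, h₁⟩ := hALN n ε hn hε
    obtain ⟨c₂, C₂, hc₂, hC₂, h₂⟩ := hAL2 n ε ε hn hε hε
    obtain ⟨c, hc⟩ : ∃ c, c = min c₁ c₂ := ⟨_, rfl⟩
    have hc0 : 0 < c := by rw [hc]; exact lt_min hc₁ hc₂
    have hcc₁ : c ≤ c₁ := by rw [hc]; exact min_le_left _ _
    have hcc₂ : c ≤ c₂ := by rw [hc]; exact min_le_right _ _
    have hCC : 0 < C₁ + C₂ := by linarith
    obtain ⟨C, hCdef⟩ : ∃ C, C = max (C₁ + C₂) ((C₁ + C₂) / c₀) := ⟨_, rfl⟩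
    have hCa : C₁ + C₂ ≤ C := by rw [hCdef]; exact le_max_left _ _
    have hCb : (C₁ + C₂) / c₀ ≤ C := by rw [hCdef]; exact le_max_right _ _
    refine ⟨ρ, c, C, hρ, hc0, lt_of_lt_of_le hCC hCa, fun X hX => ?_⟩
    have hX1 : 1 ≤ X := by linarith
    have hX0 : 0 < X := by linarith
    obtain ⟨f₁, g₁⟩ := h₁ X hX
    obtain ⟨f₂, g₂⟩ := h₂ X hX
    set S₁ : Set (Fin n → ℤ) := {x : Fin n → ℤ | Admissible x ∧
      (pd (prn x).primeFactors : ℝ) ≤ X ∧ Cd ρ X x ∧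
      (pd (prn x).primeFactors : ℝ) ^ (1 / (n : ℝ) + ε) < (htn x : ℝ)} with hS₁
    set S₂ : Set (Fin n → ℤ) := {x : Fin n → ℤ | Admissible x ∧
      (pd (prn x).primeFactors : ℝ) ≤ X ∧ Real.log (htn x) ≤ Real.log X ^ (2 - ε) ∧
      (pd (prn x).primeFactors : ℝ) ^ (1 / (n : ℝ) + ε) < (htn x : ℝ)} with hS₂
    have hsub : Violators n (1 / n + ε) ε ρ X ⊆ S₁ ∪ S₂ := by
      rintro x ⟨hx1, hx2, hx3, hx4⟩
      rcases hx3 with hx3 | hx3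
      · exact Or.inr ⟨hx1, hx2, hx3, hx4⟩
      · exact Or.inl ⟨hx1, hx2, hx3, hx4⟩
    have hfin : (S₁ ∪ S₂).Finite := f₁.union f₂
    have hcard : ((Violators n (1 / n + ε) ε ρ X).ncard : ℝ) ≤ S₁.ncard + S₂.ncard := by
      have e1 := Set.ncard_le_ncard hsub hfin
      have e2 := Set.ncard_union_le S₁ S₂
      exact_mod_cast e1.trans e2
    have m : ∀ c' : ℝ, c ≤ c' → X ^ (1 - 1 / (n : ℝ) - c') ≤ X ^ (1 - 1 / (n : ℝ) - c) :=
      fun c' h => Real.rpow_le_rpow_of_exponent_le hX1 (by linarith)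
    have e1 : C₁ * X ^ (1 - 1 / (n : ℝ) - c₁) ≤ C₁ * X ^ (1 - 1 / (n : ℝ) - c) :=
      mul_le_mul_of_nonneg_left (m c₁ hcc₁) hC₁.le
    have e2 : C₂ * X ^ (1 - 1 / (n : ℝ) - c₂) ≤ C₂ * X ^ (1 - 1 / (n : ℝ) - c) :=
      mul_le_mul_of_nonneg_left (m c₂ hcc₂) hC₂.le
    have e3 : ((Violators n (1 / n + ε) ε ρ X).ncard : ℝ) ≤
        (C₁ + C₂) * X ^ (1 - 1 / (n : ℝ) - c) := by
      rw [add_mul]
      linarith
    refine ⟨hfin.subset hsub, e3.trans (mul_le_mul_of_nonneg_right hCa (by positivity)), ?_⟩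
    have e4 : X ^ (1 - 1 / (n : ℝ) - c) = X ^ (-c) * X ^ (1 - 1 / (n : ℝ)) := by
      rw [← Real.rpow_add hX0]
      congr 1
      ring
    calc ((Violators n (1 / n + ε) ε ρ X).ncard : ℝ)
        ≤ (C₁ + C₂) / c₀ * X ^ (-c) * (c₀ * X ^ (1 - 1 / (n : ℝ))) := by
          refine e3.trans (le_of_eq ?_)
          rw [e4]
          field_simp
      _ ≤ (C₁ + C₂) / c₀ * X ^ (-c) * (Box n X).ncard :=
          mul_le_mul_of_nonneg_left (hbox X hX) (by positivity)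
      _ ≤ C * X ^ (-c) * (Box n X).ncard :=
          mul_le_mul_of_nonneg_right (mul_le_mul_of_nonneg_right hCb (by positivity))
            (Nat.cast_nonneg _)
  · refine (Pool.Agent.H18.AT.box_fin n ⌊X⌋₊).subset ?_
    rintro x ⟨-, -, hx⟩ i
    exact (Pool.Agent.H18.AT.htn_ge x i).trans (Nat.le_floor hx)

end Pool.Agent.H38.AT
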