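import Pool.Agent.H38.AT.TR2

/-!
# The tuples of height at most `exp ((log X) ^ (2 - κ))` which are not reduced
-/

set_option autoImplicit false

open Pool.Agent.H38.AE.Statement (Admissible radical)
open Pool.Agent.H38.PS (pd)
open Finset

namespace Pool.Agent.H38.AT

/-- NR2: the tuples of height at most `exp ((log X) ^ (2 - κ))` which are not reduced. -/
def T_NR2 : Prop := ∀ (n : ℕ) (κ ρ' : ℝ), 3 ≤ n → 0 < κ → κ ≤ 1 → 0 < ρ' → ∃ c C X₁ : ℝ,
  0 < c ∧ 0 < C ∧ 16 ≤ X₁ ∧ ∀ X : ℝ, X₁ ≤ X →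
  {x : Fin n → ℤ | Admissible x ∧ (pd (prn x).primeFactors : ℝ) ≤ X ∧
    Real.log (htn x) ≤ Real.log X ^ (2 - κ) ∧ x ∉ RdN n X ρ'}.Finite ∧
  ({x : Fin n → ℤ | Admissible x ∧ (pd (prn x).primeFactors : ℝ) ≤ X ∧
    Real.log (htn x) ≤ Real.log X ^ (2 - κ) ∧ x ∉ RdN n X ρ'}.ncard : ℝ) ≤
    C * X ^ (1 - 1 / (n : ℝ) - c)

theorem pf_NR2 (hTR2 : T_TR2) : T_NR2 := by
  classical
  intro n κ ρ' hn hκ hκ1 hρ'
  have hnR : (3 : ℝ) ≤ n := by exact_mod_cast hn
  have hn0 : (0 : ℝ) < n := by linarith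
  have hn1 : (0 : ℝ) < (n : ℝ) - 1 := by linarith
  obtain ⟨τ, hτ⟩ : ∃ τ, τ = κ * ρ' / (2 * n) := ⟨_, rfl⟩
  have hτ0 : 0 < τ := by rw [hτ]; positivity
  obtain ⟨c', hc'⟩ : ∃ c', c' = min (min ρ' (1 / (2 * n))) (τ / 4) := ⟨_, rfl⟩
  have hc'0 : 0 < c' := by
    rw [hc']
    exact lt_min (lt_min hρ' (by positivity)) (by positivity)
  have hc'1 : c' ≤ ρ' := by rw [hc']; exact (min_le_left _ _).trans (min_le_left _ _)
  have hc'2 : c' ≤ 1 / (2 * n) := by rw [hc']; exact (min_le_left _ _).trans (min_le_right _ _)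
  have hc'3 : c' ≤ τ / 4 := by rw [hc']; exact min_le_right _ _
  obtain ⟨e, he⟩ : ∃ e, e = c' / (2 * n) := ⟨_, rfl⟩
  have he0 : 0 < e := by rw [he]; positivity
  obtain ⟨C, X₁, hC, hX₁, hT⟩ := hTR2 n e κ (by omega) he0 hκ hκ1
  refine ⟨c' / (2 * n), Fintype.card (Fin n × Fin n × Bool) * C, X₁, by positivity, ?_, hX₁,
    fun X hX => ?_⟩
  · have : 0 < Fintype.card (Fin n × Fin n × Bool) := by
      have : Nonempty (Fin n) := ⟨⟨0, by omega⟩⟩
      exact Fintype.card_pos
    positivity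
  have hX16 : 16 ≤ X := hX₁.trans hX
  have hX0 : 0 < X := by linarith
  have hX1 : 1 ≤ X := by linarith
  have hl0 : 0 < Real.log X := Real.log_pos (by linarith)
  have hl1 : 1 < Real.log X := by
    rw [Real.lt_log_iff_exp_lt hX0]
    linarith [Real.exp_one_lt_d9]
  have hll : 0 < Real.log (Real.log X) := Real.log_pos hl1
  have h1n : 1 / (n : ℝ) ≤ 1 / 3 := one_div_le_one_div_of_le (by norm_num) hnR
  have h2n : 1 / (2 * (n : ℝ)) ≤ 1 / 6 := by
    have := one_div_le_one_div_of_le (by norm_num : (0 : ℝ) < 6) (by linarith : 6 ≤ 2 * (n : ℝ))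
    exact this
  have hcn : c' / ((n : ℝ) - 1) ≤ 1 / 12 := by
    rw [div_le_iff₀ hn1]
    linarith
  obtain ⟨Za, hZa⟩ : ∃ Za, Za = X ^ (1 - 1 / (n : ℝ) - c' / (n - 1)) := ⟨_, rfl⟩
  obtain ⟨Zb, hZb⟩ : ∃ Zb, Zb = X ^ (1 - 1 / (n : ℝ) + c') := ⟨_, rfl⟩
  obtain ⟨u, hu⟩ : ∃ u, u = ρ' / n * Real.log X / Real.log (Real.log X) := ⟨_, rfl⟩
  have hZa1 : 1 ≤ Za := by rw [hZa]; exact Real.one_le_rpow hX1 (by linarith)
  have hZaX : Za ≤ X := by
    rw [hZa]
    have h0 : 0 ≤ c' / ((n : ℝ) - 1) := by positivity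
    have h00 : 0 ≤ 1 / (n : ℝ) := by positivity
    calc X ^ (1 - 1 / (n : ℝ) - c' / (n - 1)) ≤ X ^ (1 : ℝ) :=
          Real.rpow_le_rpow_of_exponent_le hX1 (by linarith)
      _ = X := Real.rpow_one X
  have hZb1 : 1 ≤ Zb := by rw [hZb]; exact Real.one_le_rpow hX1 (by linarith)
  have hZbX : Zb ≤ X := by
    rw [hZb]
    have h3 : c' ≤ 1 / (n : ℝ) := hc'2.trans (by
      exact one_div_le_one_div_of_le hn0 (by linarith))
    calc X ^ (1 - 1 / (n : ℝ) + c') ≤ X ^ (1 : ℝ) :=
          Real.rpow_le_rpow_of_exponent_le hX1 (by linarith)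
      _ = X := Real.rpow_one X
  have hgain : (Real.log X ^ (κ / 2)) ^ (-u) = X ^ (-τ) := by
    rw [← Real.rpow_mul hl0.le, Real.rpow_def_of_pos hl0, Real.rpow_def_of_pos hX0, hu, hτ]
    congr 1
    field_simp
  set F : Fin n × Fin n × Bool → Set (Fin n → ℤ) := fun i =>
    if i.2.1 ≠ i.1 then
      (if i.2.2 then {x : Fin n → ℤ | Admissible x ∧ (pd (prn x).primeFactors : ℝ) ≤ X ∧
        Real.log (htn x) ≤ Real.log X ^ (2 - κ) ∧ (0 : ℝ) ≤ (x i.2.1).natAbs.primeFactors.card ∧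
        ∏ l ∈ Finset.univ.erase i.1, (pd (x l).natAbs.primeFactors : ℝ) ≤ Za}
      else {x : Fin n → ℤ | Admissible x ∧ (pd (prn x).primeFactors : ℝ) ≤ X ∧
        Real.log (htn x) ≤ Real.log X ^ (2 - κ) ∧ u ≤ (x i.2.1).natAbs.primeFactors.card ∧
        ∏ l ∈ Finset.univ.erase i.1, (pd (x l).natAbs.primeFactors : ℝ) ≤ Zb})
    else ∅ with hF
  have hexp : c' / (2 * n) ≤ c' / ((n : ℝ) - 1) - e := by
    have h1 : c' / (n : ℝ) ≤ c' / ((n : ℝ) - 1) :=
      div_le_div_of_nonneg_left hc'0.le hn1 (by linarith)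
    have h3 : c' / (n : ℝ) = c' / (2 * n) + c' / (2 * n) := by field_simp; ring
    rw [he]
    linarith
  have hc2n : c' / (2 * n) ≤ c' := by
    rw [div_le_iff₀ (by positivity)]
    nlinarith
  have hee : e ≤ c' := by rw [he]; exact hc2n
  have hFb : ∀ i, (F i).Finite ∧ ((F i).ncard : ℝ) ≤
      C * X ^ (1 - 1 / (n : ℝ) - c' / (2 * n)) := by
    rintro ⟨k, l₀, b⟩
    have hpos : 0 ≤ C * X ^ (1 - 1 / (n : ℝ) - c' / (2 * n)) := by positivity
    simp only [hF]
    by_cases hlk : l₀ ≠ k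
    · rw [if_pos hlk]
      cases b with
      | true =>
        obtain ⟨h1, h2⟩ := hT X Za 0 k l₀ hX hZa1 hZaX hlk
        refine ⟨h1, h2.trans ?_⟩
        rw [hZa, neg_zero, Real.rpow_zero, mul_one, mul_assoc, ← Real.rpow_add hX0]
        exact mul_le_mul_of_nonneg_left
          (Real.rpow_le_rpow_of_exponent_le hX1 (by linarith)) hC.le
      | false =>
        obtain ⟨h1, h2⟩ := hT X Zb u k l₀ hX hZb1 hZbX hlk
        refine ⟨h1, h2.trans ?_⟩
        rw [hZb, hgain, mul_assoc, mul_assoc, ← Real.rpow_add hX0, ← Real.rpow_add hX0]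
        exact mul_le_mul_of_nonneg_left
          (Real.rpow_le_rpow_of_exponent_le hX1 (by linarith)) hC.le
    · rw [if_neg hlk]
      refine ⟨Set.finite_empty, ?_⟩
      rw [Set.ncard_empty, Nat.cast_zero]
      exact hpos
  have hcov : {x : Fin n → ℤ | Admissible x ∧ (pd (prn x).primeFactors : ℝ) ≤ X ∧
      Real.log (htn x) ≤ Real.log X ^ (2 - κ) ∧ x ∉ RdN n X ρ'} ⊆ ⋃ i, F i := by
    rintro x ⟨hx, hxX, hCd, hxR⟩
    rw [Set.mem_iUnion]
    have hpos : ∀ l, (1 : ℝ) ≤ pd (x l).natAbs.primeFactors := fun l => by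
      have : 1 ≤ pd (x l).natAbs.primeFactors :=
        Finset.prod_pos fun p hp => (Nat.prime_of_mem_primeFactors hp).pos
      exact_mod_cast this
    have hprod : ∏ l, (pd (x l).natAbs.primeFactors : ℝ) ≤ X := by
      rw [← Nat.cast_prod, ← pd_prn hx]
      exact hxX
    have hsum : ∑ l, Real.log (pd (x l).natAbs.primeFactors : ℝ) ≤ Real.log X := by
      rw [← Real.log_prod fun l _ => by linarith [hpos l]]
      exact Real.log_le_log (Finset.prod_pos fun l _ => by linarith [hpos l]) hprod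
    have hlog : ∀ l, 0 ≤ Real.log (pd (x l).natAbs.primeFactors : ℝ) := fun l =>
      Real.log_nonneg (hpos l)
    have herase : ∀ (k : Fin n) (z : ℝ), ∑ l ∈ Finset.univ.erase k,
        Real.log (pd (x l).natAbs.primeFactors : ℝ) ≤ z * Real.log X →
        ∏ l ∈ Finset.univ.erase k, (pd (x l).natAbs.primeFactors : ℝ) ≤ X ^ z := by
      intro k z hz
      have h1 : 0 < ∏ l ∈ Finset.univ.erase k, (pd (x l).natAbs.primeFactors : ℝ) :=
        Finset.prod_pos fun l _ => by linarith [hpos l]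
      rw [← Real.log_le_log_iff h1 (Real.rpow_pos_of_pos hX0 _), Real.log_rpow hX0,
        Real.log_prod fun l _ => by linarith [hpos l]]
      exact hz
    by_cases ha : ∃ i, (pd (x i).natAbs.primeFactors : ℝ) < X ^ (1 / (n : ℝ) - c')
    · obtain ⟨i, hi⟩ := ha
      have hne : (Finset.univ.erase i : Finset (Fin n)).Nonempty := by
        rw [← Finset.card_pos, Finset.card_erase_of_mem (Finset.mem_univ i), Finset.card_univ,
          Fintype.card_fin]
        omega
      obtain ⟨k, hk, hmax⟩ := Finset.exists_max_image (Finset.univ.erase i)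
        (fun l => Real.log (pd (x l).natAbs.primeFactors : ℝ)) hne
      have hki : k ≠ i := Finset.ne_of_mem_erase hk
      refine ⟨(k, i, true), ?_⟩
      simp only [hF]
      rw [if_pos hki.symm, if_pos trivial]
      refine ⟨hx, hxX, hCd, Nat.cast_nonneg _, ?_⟩
      rw [hZa]
      refine herase k _ ?_
      have h1 : ∑ l ∈ Finset.univ.erase i, Real.log (pd (x l).natAbs.primeFactors : ℝ) ≤
          ((n : ℝ) - 1) * Real.log (pd (x k).natAbs.primeFactors : ℝ) := by
        refine (Finset.sum_le_sum fun l hl => hmax l hl).trans (le_of_eq ?_)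
        rw [Finset.sum_const, Finset.card_erase_of_mem (Finset.mem_univ i), Finset.card_univ,
          Fintype.card_fin, nsmul_eq_mul, Nat.cast_sub (by omega), Nat.cast_one]
      have h2 := Finset.add_sum_erase Finset.univ
        (fun l => Real.log (pd (x l).natAbs.primeFactors : ℝ)) (Finset.mem_univ i)
      have h3 := Finset.add_sum_erase Finset.univ
        (fun l => Real.log (pd (x l).natAbs.primeFactors : ℝ)) (Finset.mem_univ k)
      have h4 : Real.log (pd (x i).natAbs.primeFactors : ℝ) ≤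
          (1 / (n : ℝ) - c') * Real.log X := by
        rw [← Real.log_rpow hX0]
        exact Real.log_le_log (by linarith [hpos i]) hi.le
      obtain ⟨s, hs⟩ : ∃ s, s = ∑ l, Real.log (pd (x l).natAbs.primeFactors : ℝ) := ⟨_, rfl⟩
      obtain ⟨a, ha'⟩ : ∃ a, a = Real.log (pd (x i).natAbs.primeFactors : ℝ) := ⟨_, rfl⟩
      obtain ⟨b, hb'⟩ : ∃ b, b = Real.log (pd (x k).natAbs.primeFactors : ℝ) := ⟨_, rfl⟩
      rw [← hs] at h2 h3 hsum
      rw [← ha'] at h2 h4
      rw [← hb'] at h1 h3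
      have h5 : ∑ l ∈ Finset.univ.erase k, Real.log (pd (x l).natAbs.primeFactors : ℝ) =
          s - b := by linarith
      rw [h5]
      have h6 : s - a ≤ ((n : ℝ) - 1) * b := by linarith
      have h7 : ((n : ℝ) - 1) * (s - b) ≤ ((n : ℝ) - 2) * Real.log X +
          (1 / (n : ℝ) - c') * Real.log X := by nlinarith
      have h8 : ((n : ℝ) - 1) * ((1 - 1 / (n : ℝ) - c' / (n - 1)) * Real.log X) =
          ((n : ℝ) - 2) * Real.log X + (1 / (n : ℝ) - c') * Real.log X := by
        field_simp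
        ring
      rw [← h8] at h7
      exact le_of_mul_le_mul_left h7 hn1
    · push Not at ha
      have hω : ρ' * Real.log X < ((prn x).primeFactors.card : ℝ) * Real.log (Real.log X) := by
        by_contra hcon
        refine hxR ⟨hx, hxX, fun i => ?_, not_lt.1 hcon⟩
        exact (Real.rpow_le_rpow_of_exponent_le hX1 (by linarith)).trans (ha i)
      obtain ⟨l₀, hl₀⟩ : ∃ l₀, u ≤ ((x l₀).natAbs.primeFactors.card : ℝ) := by
        by_contra hcon
        push Not at hcon
        have h1 : ((prn x).primeFactors.card : ℝ) ≤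
            ∑ l, ((x l).natAbs.primeFactors.card : ℝ) := by
          rw [primes_prn hx]
          exact_mod_cast Finset.card_biUnion_le
        have h2 : ∑ l, ((x l).natAbs.primeFactors.card : ℝ) ≤ n * u := by
          refine (Finset.sum_le_sum fun l _ => (hcon l).le).trans (le_of_eq ?_)
          rw [Finset.sum_const, Finset.card_univ, Fintype.card_fin, nsmul_eq_mul]
        have h3 : (n : ℝ) * u * Real.log (Real.log X) = ρ' * Real.log X := by
          rw [hu]
          field_simp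
        have h4 := mul_le_mul_of_nonneg_right (h1.trans h2) hll.le
        linarith
      obtain ⟨k, hk⟩ : ∃ k : Fin n, l₀ ≠ k := by
        by_contra hcon
        push Not at hcon
        have h1 := hcon ⟨0, by omega⟩
        have h2 := hcon ⟨1, by omega⟩
        rw [h1, Fin.mk.injEq] at h2
        omega
      refine ⟨(k, l₀, false), ?_⟩
      simp only [hF]
      rw [if_pos hk, if_neg (by decide)]
      refine ⟨hx, hxX, hCd, hl₀, ?_⟩
      rw [hZb]
      refine herase k _ ?_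
      have h3 := Finset.add_sum_erase Finset.univ
        (fun l => Real.log (pd (x l).natAbs.primeFactors : ℝ)) (Finset.mem_univ k)
      have h4 : (1 / (n : ℝ) - c') * Real.log X ≤
          Real.log (pd (x k).natAbs.primeFactors : ℝ) := by
        rw [← Real.log_rpow hX0]
        exact Real.log_le_log (Real.rpow_pos_of_pos hX0 _) (ha k)
      linarith
  obtain ⟨h1, h2⟩ := union_bound _ F _ hFb hcov
  refine ⟨h1, h2.trans (le_of_eq ?_)⟩
  ring

end Pool.Agent.H38.AT
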