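import Pool.Agent.H38.AT.WT
import Pool.Agent.H38.AT.NRN

/-!
# The bound by `n - 1` radicals for all tuples of height at most `exp ((log X) ^ (2 - κ))`
-/

set_option autoImplicit false

open Pool.Agent.H38.AE.Statement (Admissible radical)
open Pool.Agent.H38.PS (pd)
open Finset

namespace Pool.Agent.H38.AT

/-- TR2: the bound by `n - 1` radicals, one of which has many prime factors; height at most
`exp ((log X) ^ (2 - κ))`. -/
def T_TR2 : Prop := ∀ (n : ℕ) (η κ : ℝ), 2 ≤ n → 0 < η → 0 < κ → κ ≤ 1 → ∃ C X₁ : ℝ, 0 < C ∧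
  16 ≤ X₁ ∧ ∀ (X Z u : ℝ) (k l₀ : Fin n), X₁ ≤ X → 1 ≤ Z → Z ≤ X → l₀ ≠ k →
  {x : Fin n → ℤ | Admissible x ∧ (pd (prn x).primeFactors : ℝ) ≤ X ∧
    Real.log (htn x) ≤ Real.log X ^ (2 - κ) ∧ u ≤ (x l₀).natAbs.primeFactors.card ∧
    ∏ l ∈ Finset.univ.erase k, (pd (x l).natAbs.primeFactors : ℝ) ≤ Z}.Finite ∧
  ({x : Fin n → ℤ | Admissible x ∧ (pd (prn x).primeFactors : ℝ) ≤ X ∧
    Real.log (htn x) ≤ Real.log X ^ (2 - κ) ∧ u ≤ (x l₀).natAbs.primeFactors.card ∧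
    ∏ l ∈ Finset.univ.erase k, (pd (x l).natAbs.primeFactors : ℝ) ≤ Z}.ncard : ℝ) ≤
    C * Z * X ^ η * (Real.log X ^ (κ / 2)) ^ (-u)

/-- the choice of the threshold -/
theorem loss_le {n : ℕ} {η κ : ℝ} (hη : 0 < η) (hκ : 0 < κ) (hκ1 : κ ≤ 1) :
    ∃ L₁ : ℝ, 1 ≤ L₁ ∧ ∀ (y : ℝ) (D : ℕ), L₁ ≤ y → (D : ℝ) ≤ 4 * y ^ (1 - κ / 2) →
      (D * n : ℝ) * Real.log (1 + y) ≤ η * y := by
  obtain ⟨a, ha⟩ : ∃ a, a = κ / 4 := ⟨_, rfl⟩
  have ha0 : 0 < a := by rw [ha]; positivity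
  obtain ⟨T, hT⟩ : ∃ T, T = max 1 (8 * n / (a * η)) := ⟨_, rfl⟩
  have hT1 : 1 ≤ T := by rw [hT]; exact le_max_left _ _
  have hT2 : 8 * n / (a * η) ≤ T := by rw [hT]; exact le_max_right _ _
  refine ⟨T ^ (1 / a), Real.one_le_rpow hT1 (by positivity), fun y D hy hD => ?_⟩
  have hy1 : 1 ≤ y := (Real.one_le_rpow hT1 (by positivity)).trans hy
  have hy0 : 0 < y := by linarith
  have h1 : T ≤ y ^ a := by
    calc T = (T ^ (1 / a)) ^ a := by
          rw [← Real.rpow_mul (by linarith), one_div_mul_cancel ha0.ne', Real.rpow_one]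
      _ ≤ y ^ a := Real.rpow_le_rpow (by positivity) hy ha0.le
  have h2 : Real.log (1 + y) ≤ 2 * y ^ a / a := by
    have h3 : Real.log (1 + y) ≤ (1 + y) ^ a / a := Real.log_le_rpow_div (by linarith) ha0
    refine h3.trans (div_le_div_of_nonneg_right ?_ ha0.le)
    calc (1 + y) ^ a ≤ (2 * y) ^ a := Real.rpow_le_rpow (by linarith) (by linarith) ha0.le
      _ = 2 ^ a * y ^ a := Real.mul_rpow (by norm_num) hy0.le
      _ ≤ 2 * y ^ a := by
          refine mul_le_mul_of_nonneg_right ?_ (by positivity)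
          calc (2 : ℝ) ^ a ≤ 2 ^ (1 : ℝ) :=
                Real.rpow_le_rpow_of_exponent_le (by norm_num) (by rw [ha]; linarith)
            _ = 2 := Real.rpow_one 2
  have h4 : y ^ (1 - κ / 2) * y ^ a * y ^ a = y := by
    rw [← Real.rpow_add hy0, ← Real.rpow_add hy0]
    have : 1 - κ / 2 + a + a = 1 := by rw [ha]; ring
    rw [this, Real.rpow_one]
  have h5 : 8 * n / a ≤ η * y ^ a := by
    have h6 : 8 * (n : ℝ) / a = 8 * n / (a * η) * η := by field_simp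
    rw [h6, mul_comm η]
    exact mul_le_mul_of_nonneg_right (hT2.trans h1) hη.le
  have hl0 : 0 ≤ Real.log (1 + y) := Real.log_nonneg (by linarith)
  calc (D * n : ℝ) * Real.log (1 + y) ≤ (4 * y ^ (1 - κ / 2) * n) * (2 * y ^ a / a) :=
        mul_le_mul (mul_le_mul_of_nonneg_right hD (Nat.cast_nonneg n)) h2 hl0 (by positivity)
    _ = y ^ (1 - κ / 2) * y ^ a * (8 * n / a) := by ring
    _ ≤ y ^ (1 - κ / 2) * y ^ a * (η * y ^ a) := mul_le_mul_of_nonneg_left h5 (by positivity)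
    _ = η * (y ^ (1 - κ / 2) * y ^ a * y ^ a) := by ring
    _ = η * y := by rw [h4]

theorem pf_TR2 (hMUL : T_MUL) : T_TR2 := by
  classical
  intro n η κ hn hη hκ hκ1
  have hn0 : (0 : ℝ) < n := by
    have : 0 < n := by omega
    exact_mod_cast this
  obtain ⟨e, he⟩ : ∃ e, e = η / (2 * n) := ⟨_, rfl⟩
  have he0 : 0 < e := by rw [he]; positivity
  obtain ⟨C, hC, hM⟩ := hMUL e he0
  obtain ⟨L₁, hL₁, hloss⟩ := loss_le (n := n) (half_pos hη) hκ hκ1
  refine ⟨(2 * C) ^ n, max 16 (Real.exp L₁), by positivity, le_max_left _ _, ?_⟩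
  intro X Z u k l₀ hX hZ hZX hl
  have hX16 : 16 ≤ X := (le_max_left _ _).trans hX
  have hX0 : 0 < X := by linarith
  have hX1 : 1 ≤ X := by linarith
  have hy : L₁ ≤ Real.log X := by
    rw [Real.le_log_iff_exp_le hX0]
    exact (le_max_right _ _).trans hX
  obtain ⟨y, hy'⟩ : ∃ y, y = Real.log X := ⟨_, rfl⟩
  have hy1 : 1 ≤ y := by rw [hy']; linarith
  have hy0 : 0 < y := by linarith
  obtain ⟨B, hB⟩ : ∃ B, B = y ^ (1 - κ) := ⟨_, rfl⟩
  have hB0 : 0 ≤ B := by rw [hB]; positivity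
  have hB1 : 1 ≤ B := by rw [hB]; exact Real.one_le_rpow hy1 (by linarith)
  have hBy : B * y = y ^ (2 - κ) := by
    rw [hB]
    nth_rewrite 2 [← Real.rpow_one y]
    rw [← Real.rpow_add hy0]
    congr 1
    ring
  obtain ⟨z, hz⟩ : ∃ z, z = y ^ (κ / 2) := ⟨_, rfl⟩
  have hz1 : 1 ≤ z := by rw [hz]; exact Real.one_le_rpow hy1 (by linarith)
  obtain ⟨D, hD⟩ : ∃ D : ℕ, D = ⌈z * (2 + B)⌉₊ := ⟨_, rfl⟩
  have hD1 : z * (2 + B) ≤ D := by rw [hD]; exact Nat.le_ceil _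
  have hzB : z * B = y ^ (1 - κ / 2) := by
    rw [hz, hB, ← Real.rpow_add hy0]
    congr 1
    ring
  have hD2 : (D : ℝ) ≤ 4 * y ^ (1 - κ / 2) := by
    rw [hD]
    refine (Nat.ceil_lt_add_one (by nlinarith)).le.trans ?_
    rw [← hzB]
    nlinarith
  set V : Set (Fin n → ℤ) := {x : Fin n → ℤ | Admissible x ∧ (pd (prn x).primeFactors : ℝ) ≤ X ∧
    Real.log (htn x) ≤ Real.log X ^ (2 - κ) ∧ u ≤ (x l₀).natAbs.primeFactors.card ∧
    ∏ l ∈ Finset.univ.erase k, (pd (x l).natAbs.primeFactors : ℝ) ≤ Z} with hV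
  set R : Finset (Fin n → ℕ) := (Fintype.piFinset fun _ : Fin n => Finset.Icc 1 ⌊Z⌋₊).filter
    fun r => (∀ l, Squarefree (r l)) ∧ u ≤ (r l₀).primeFactors.card ∧
      ((∏ l, r l : ℕ) : ℝ) ≤ Z with hR
  have hRmem : ∀ r ∈ R, (∀ l, 1 ≤ r l) ∧ (∀ l, Squarefree (r l)) ∧
      u ≤ (r l₀).primeFactors.card ∧ ((∏ l, r l : ℕ) : ℝ) ≤ Z := by
    intro r hr
    obtain ⟨h1, h2, h3, h4⟩ := Finset.mem_filter.1 hr
    exact ⟨fun l => (Finset.mem_Icc.1 (Fintype.mem_piFinset.1 h1 l)).1, h2, h3, h4⟩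
  have hRX : ∀ r ∈ R, ∀ l, (r l : ℝ) ≤ X := by
    intro r hr l
    have h1 := (Finset.mem_Icc.1 (Fintype.mem_piFinset.1 (Finset.mem_filter.1 hr).1 l)).2
    have h2 : (r l : ℝ) ≤ ⌊Z⌋₊ := by exact_mod_cast h1
    exact (h2.trans (Nat.floor_le (by linarith))).trans hZX
  have hcount := rad_count_w (w := 2 + B) hZ (by linarith) hz1 hD1 hl R hRmem
  set φ : (Fin n → ℤ) → (Fin n → ℕ) := fun x l => if l = k then 1 else
    pd (x l).natAbs.primeFactors with hφ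
  have hφR : ∀ x ∈ V, φ x ∈ R := by
    rintro x ⟨hx, -, -, hxu, hxZ⟩
    have hprm : ∀ l, ∀ p ∈ (x l).natAbs.primeFactors, p.Prime := fun l p hp =>
      Nat.prime_of_mem_primeFactors hp
    have hpos : ∀ l, 1 ≤ pd (x l).natAbs.primeFactors := fun l =>
      Finset.prod_pos fun p hp => (hprm l p hp).pos
    have hpos' : ∀ l, 1 ≤ φ x l := by
      intro l
      simp only [hφ]
      split_ifs
      · exact le_rfl
      · exact hpos l
    have hprod : ((∏ l, φ x l : ℕ) : ℝ) ≤ Z := by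
      refine le_trans (le_of_eq ?_) hxZ
      rw [← Finset.mul_prod_erase _ _ (Finset.mem_univ k)]
      have h1 : φ x k = 1 := by simp [hφ]
      rw [h1, one_mul, Nat.cast_prod]
      exact Finset.prod_congr rfl fun l hl' => by
        simp only [hφ]
        rw [if_neg (Finset.ne_of_mem_erase hl')]
    rw [hR, Finset.mem_filter, Fintype.mem_piFinset]
    refine ⟨fun l => Finset.mem_Icc.2 ⟨hpos' l, Nat.le_floor (le_trans ?_ hprod)⟩, ?_, ?_, hprod⟩
    · have h5 : φ x l ∣ ∏ l, φ x l := Finset.dvd_prod_of_mem _ (Finset.mem_univ l)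
      have h6 : 0 < ∏ l, φ x l := Finset.prod_pos fun l _ => hpos' l
      exact_mod_cast Nat.le_of_dvd h6 h5
    · intro l
      simp only [hφ]
      split_ifs
      · exact squarefree_one
      · unfold pd
        refine Finset.squarefree_prod_of_pairwise_isCoprime (fun a ha b hb hab => ?_)
          fun p hp => (hprm l p hp).squarefree
        exact Nat.coprime_iff_isRelPrime.1
          ((Nat.coprime_primes (hprm l a ha) (hprm l b hb)).2 hab)
    · simp only [hφ]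
      rw [if_neg hl, pf_pd (hprm l₀)]
      exact hxu
  have hfib : ∀ r ∈ R, {x | x ∈ V ∧ φ x = r}.Finite ∧
      ({x | x ∈ V ∧ φ x = r}.ncard : ℝ) ≤ (2 * C * X ^ e) ^ n *
        ∏ l ∈ univ.erase k, (2 + B) ^ (r l).primeFactors.card := by
    intro r hr
    refine fib_three (k := k) hC he0.le (by linarith) hB0
      (fun s hs => hM X B s (by linarith) hB0 hs) r (hRX r hr) ?_
    rintro x ⟨hx, hxr⟩
    refine ⟨hx.1, ?_, fun l hlk => ?_⟩
    · rw [← hy', hBy, hy']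
      exact hx.2.2.1
    · have h1 := congrFun hxr l
      simp only [hφ] at h1
      rwa [if_neg hlk] at h1
  have hVU : V ⊆ ⋃ r ∈ R, {x | x ∈ V ∧ φ x = r} := by
    intro x hx
    simp only [Set.mem_iUnion]
    exact ⟨φ x, hφR x hx, hx, rfl⟩
  have hfinU : (⋃ r ∈ R, {x | x ∈ V ∧ φ x = r}).Finite :=
    Set.Finite.biUnion (Finset.finite_toSet R) fun r hr => (hfib r (Finset.mem_coe.1 hr)).1
  have hVf : V.Finite := hfinU.subset hVU
  refine ⟨hVf, ?_⟩
  have h1 : (V.ncard : ℝ) ≤ ∑ r ∈ R, ({x | x ∈ V ∧ φ x = r}.ncard : ℝ) := by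
    have h2 : V.ncard ≤ ∑ r ∈ R, {x | x ∈ V ∧ φ x = r}.ncard := by
      rw [Set.ncard_eq_toFinset_card V hVf]
      have h3 : ∀ x ∈ hVf.toFinset, φ x ∈ R := fun x hx => hφR x (hVf.mem_toFinset.1 hx)
      rw [Finset.card_eq_sum_card_fiberwise h3]
      refine Finset.sum_le_sum fun r hr => ?_
      rw [← Set.ncard_coe_finset]
      refine Set.ncard_le_ncard (fun x hx => ?_) (hfib r hr).1
      obtain ⟨h4, h5⟩ := Finset.mem_filter.1 (Finset.mem_coe.1 hx)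
      exact ⟨hVf.mem_toFinset.1 h4, h5⟩
    exact_mod_cast h2
  have h2 : ∑ r ∈ R, ({x | x ∈ V ∧ φ x = r}.ncard : ℝ) ≤
      (2 * C * X ^ e) ^ n * ∑ r ∈ R, ∏ l ∈ univ.erase k, (2 + B) ^ (r l).primeFactors.card := by
    rw [Finset.mul_sum]
    exact Finset.sum_le_sum fun r hr => (hfib r hr).2
  have hlogZ : ((1 + Real.log Z) ^ D) ^ n ≤ X ^ (η / 2) := by
    have h3 : Real.log Z ≤ y := by rw [hy']; exact Real.log_le_log (by linarith) hZX
    have h4 : 0 ≤ Real.log Z := Real.log_nonneg hZ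
    have h5 := hloss y D (by rw [hy']; exact hy) hD2
    calc ((1 + Real.log Z) ^ D) ^ n ≤ ((1 + y) ^ D) ^ n :=
          pow_le_pow_left₀ (by positivity) (pow_le_pow_left₀ (by linarith) (by linarith) D) n
      _ = Real.exp ((D * n : ℝ) * Real.log (1 + y)) := by
          rw [← pow_mul, ← Real.rpow_natCast, Real.rpow_def_of_pos (by linarith), mul_comm]
          push_cast
          rfl
      _ ≤ Real.exp (η / 2 * y) := Real.exp_le_exp.2 h5
      _ = X ^ (η / 2) := by rw [Real.rpow_def_of_pos hX0, hy', mul_comm]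
  have hzu : 0 ≤ z ^ (-u) * Z := mul_nonneg (Real.rpow_nonneg (by linarith) _) (by linarith)
  have hXe : (X ^ e) ^ n * X ^ (η / 2) = X ^ η := by
    rw [← Real.rpow_natCast, ← Real.rpow_mul hX0.le, ← Real.rpow_add hX0]
    congr 1
    rw [he]
    field_simp
    ring
  calc (V.ncard : ℝ) ≤ (2 * C * X ^ e) ^ n * ∑ r ∈ R, ∏ l ∈ univ.erase k,
        (2 + B) ^ (r l).primeFactors.card := h1.trans h2
    _ ≤ (2 * C * X ^ e) ^ n * (z ^ (-u) * Z * ((1 + Real.log Z) ^ D) ^ n) :=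
        mul_le_mul_of_nonneg_left hcount (by positivity)
    _ ≤ (2 * C * X ^ e) ^ n * (z ^ (-u) * Z * X ^ (η / 2)) :=
        mul_le_mul_of_nonneg_left (mul_le_mul_of_nonneg_left hlogZ hzu) (by positivity)
    _ = (2 * C) ^ n * Z * ((X ^ e) ^ n * X ^ (η / 2)) * z ^ (-u) := by
        rw [mul_pow]
        ring
    _ = (2 * C) ^ n * Z * X ^ η * (Real.log X ^ (κ / 2)) ^ (-u) := by rw [hXe, hz, hy']

end Pool.Agent.H38.AT
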