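import Pool.Agent.H38.AT.Targets

/-!
# Board `alt_modules`, module TRI: the bound by `n - 1` radicals
-/

set_option autoImplicit false

open Pool.Agent.H38.AE.Statement (Admissible radical)
open Pool.Agent.H38.PS (pd)
open Finset

namespace Pool.Agent.H38.AT

theorem pf_pd {S : Finset ℕ} (hS : ∀ p ∈ S, p.Prime) : (pd S).primeFactors = S := by
  unfold pd
  exact Nat.primeFactors_prod hS

theorem prn_ne {n : ℕ} {x : Fin n → ℤ} (hx : Admissible x) : prn x ≠ 0 :=
  Int.natAbs_ne_zero.2 (Finset.prod_ne_zero_iff.2 fun i _ => hx.1 i)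

theorem sub_prn {n : ℕ} {x : Fin n → ℤ} (hx : Admissible x) (l : Fin n) :
    (x l).natAbs.primeFactors ⊆ (prn x).primeFactors :=
  Nat.primeFactors_mono (Int.natAbs_dvd_natAbs.2 (Finset.dvd_prod_of_mem x (Finset.mem_univ l)))
    (prn_ne hx)

theorem disj_n {n : ℕ} {x : Fin n → ℤ} (hx : Admissible x) {i j : Fin n} (hij : i ≠ j) :
    Disjoint (x i).natAbs.primeFactors (x j).natAbs.primeFactors :=
  Nat.Coprime.disjoint_primeFactors (Int.isCoprime_iff_gcd_eq_one.1 (hx.2.1 i j hij))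

theorem card_le_prn {n : ℕ} {x : Fin n → ℤ} (hx : Admissible x) (s : Finset (Fin n)) :
    ∑ l ∈ s, (x l).natAbs.primeFactors.card ≤ (prn x).primeFactors.card := by
  classical
  rw [← Finset.card_biUnion fun i _ j _ hij => disj_n hx hij]
  refine Finset.card_le_card fun p hp => ?_
  obtain ⟨l, -, h⟩ := Finset.mem_biUnion.1 hp
  exact sub_prn hx l h

theorem le_htn {n : ℕ} (x : Fin n → ℤ) (i : Fin n) : (x i).natAbs ≤ htn x :=
  Finset.le_sup (f := fun i => (x i).natAbs) (Finset.mem_univ i)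

/-- tuples with given sets of the entries different from `x k` -/
theorem fib_one {n : ℕ} {k : Fin n} {T : Set (Fin n → ℤ)} (hT : ∀ x ∈ T, Admissible x)
    (M : Fin n → Set ℕ) (hM : ∀ l, (M l).Finite)
    (h : ∀ x ∈ T, ∀ l, l ≠ k → (x l).natAbs ∈ M l) :
    T.Finite ∧ T.ncard ≤ ∏ l ∈ univ.erase k, 2 * (M l).ncard := by
  classical
  set A : Fin n → Finset ℤ := fun l => if l = k then {0} else
    ((hM l).toFinset.image fun m : ℕ => (m : ℤ)) ∪ ((hM l).toFinset.image fun m : ℕ => -(m : ℤ))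
    with hA
  set f : (Fin n → ℤ) → (Fin n → ℤ) := fun x l => if l = k then 0 else x l with hf
  have hmem : ∀ x ∈ T, f x ∈ Fintype.piFinset A := by
    intro x hx
    rw [Fintype.mem_piFinset]
    intro l
    simp only [hA, hf]
    by_cases hl : l = k
    · rw [if_pos hl, if_pos hl]
      exact Finset.mem_singleton_self _
    · rw [if_neg hl, if_neg hl, Finset.mem_union, Finset.mem_image, Finset.mem_image]
      have h1 := h x hx l hl
      rcases Int.natAbs_eq (x l) with h2 | h2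
      · exact Or.inl ⟨(x l).natAbs, (hM l).mem_toFinset.2 h1, h2.symm⟩
      · exact Or.inr ⟨(x l).natAbs, (hM l).mem_toFinset.2 h1, h2.symm⟩
  have hinj : Set.InjOn f T := by
    intro x hx y hy hxy
    have h1 : ∀ l, l ≠ k → x l = y l := by
      intro l hl
      have h2 := congrFun hxy l
      simp only [hf] at h2
      rwa [if_neg hl, if_neg hl] at h2
    have hx0 := (hT x hx).2.2
    have hy0 := (hT y hy).2.2
    rw [← Finset.add_sum_erase _ _ (Finset.mem_univ k)] at hx0 hy0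
    have h3 : ∑ l ∈ univ.erase k, x l = ∑ l ∈ univ.erase k, y l :=
      Finset.sum_congr rfl fun l hl => h1 l (Finset.ne_of_mem_erase hl)
    funext l
    by_cases hl : l = k
    · rw [hl]
      linarith
    · exact h1 l hl
  have hfin : T.Finite := Set.Finite.of_injOn hmem hinj (Finset.finite_toSet _)
  refine ⟨hfin, ?_⟩
  have h1 : T.ncard ≤ (Fintype.piFinset A).card := by
    rw [← Set.ncard_coe_finset]
    exact Set.ncard_le_ncard_of_injOn f hmem hinj (Finset.finite_toSet _)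
  refine h1.trans ?_
  rw [Fintype.card_piFinset, ← Finset.mul_prod_erase _ _ (Finset.mem_univ k)]
  have h2 : (A k).card = 1 := by simp [hA]
  rw [h2, one_mul]
  refine Finset.prod_le_prod' fun l hl => ?_
  have hlk := Finset.ne_of_mem_erase hl
  simp only [hA]
  rw [if_neg hlk]
  refine (Finset.card_union_le _ _).trans ?_
  have h3 : (hM l).toFinset.card = (M l).ncard := (Set.ncard_eq_toFinset_card _ (hM l)).symm
  have h4 := Finset.card_image_le (s := (hM l).toFinset) (f := fun m : ℕ => (m : ℤ))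
  have h5 := Finset.card_image_le (s := (hM l).toFinset) (f := fun m : ℕ => -(m : ℤ))
  omega

/-- tuples with given radicals of the entries different from `x k` -/
theorem fib_two {n : ℕ} {C η X ρ : ℝ} {k : Fin n} (hC : 1 ≤ C) (hη : 0 ≤ η) (hX : 2 ≤ X)
    (hρ : 0 ≤ ρ)
    (hMUL : ∀ (B : ℝ) (r : ℕ), 0 ≤ B → (r : ℝ) ≤ X →
      {m : ℕ | m ≠ 0 ∧ pd m.primeFactors = r ∧ Real.log m ≤ B * Real.log X}.Finite ∧
      ({m : ℕ | m ≠ 0 ∧ pd m.primeFactors = r ∧ Real.log m ≤ B * Real.log X}.ncard : ℝ) ≤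
        C * X ^ η * (2 + B) ^ r.primeFactors.card)
    (r : Fin n → ℕ) (hr : ∀ l, (r l : ℝ) ≤ X) {T : Set (Fin n → ℤ)}
    (hT : ∀ x ∈ T, Admissible x ∧ Cd ρ X x ∧
      ∀ l, l ≠ k → pd (x l).natAbs.primeFactors = r l) :
    T.Finite ∧ (T.ncard : ℝ) ≤ (2 * C * X ^ η) ^ n * X ^ ρ := by
  classical
  have hX0 : 0 < X := by linarith
  have hX1 : 1 ≤ X := by linarith
  have hl0 : 0 < Real.log X := Real.log_pos (by linarith)
  have hXη : 1 ≤ X ^ η := Real.one_le_rpow hX1 hη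
  have hXρ : 1 ≤ X ^ ρ := Real.one_le_rpow hX1 hρ
  have hb2 : 2 ≤ 2 * C * X ^ η := by nlinarith
  have hD : 0 ≤ (2 * C * X ^ η) ^ n * X ^ ρ := by positivity
  have hcard : (univ.erase k).card ≤ n := by
    refine (Finset.card_le_card (Finset.erase_subset _ _)).trans ?_
    rw [Finset.card_univ, Fintype.card_fin]
  rcases T.eq_empty_or_nonempty with he | ⟨x₀, hx₀⟩
  · rw [he]
    refine ⟨Set.finite_empty, ?_⟩
    rw [Set.ncard_empty, Nat.cast_zero]
    exact hD
  have hpf : ∀ x ∈ T, ∀ l, l ≠ k → (x l).natAbs.primeFactors = (r l).primeFactors := by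
    intro x hx l hl
    rw [← (hT x hx).2.2 l hl, pf_pd fun p hp => Nat.prime_of_mem_primeFactors hp]
  obtain ⟨w, hw⟩ : ∃ w, w = ∑ l ∈ univ.erase k, (r l).primeFactors.card := ⟨_, rfl⟩
  have hwx : ∀ x ∈ T, w ≤ (prn x).primeFactors.card := by
    intro x hx
    rw [hw]
    refine le_trans (le_of_eq ?_) (card_le_prn (hT x hx).1 (univ.erase k))
    exact Finset.sum_congr rfl fun l hl => by rw [hpf x hx l (Finset.ne_of_mem_erase hl)]
  rcases Nat.eq_zero_or_pos w with hw0 | hw0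
  · -- all entries different from `x k` are `± 1`
    have h0 : ∀ l, l ≠ k → (r l).primeFactors.card = 0 := by
      intro l hl
      rw [hw] at hw0
      exact (Finset.sum_eq_zero_iff.1 hw0) l (Finset.mem_erase.2 ⟨hl, Finset.mem_univ _⟩)
    obtain ⟨h1, h2⟩ := fib_one (k := k) (T := T) (fun x hx => (hT x hx).1) (fun _ => {1})
      (fun _ => Set.finite_singleton _) (by
        intro x hx l hl
        have h3 := h0 l hl
        rw [← hpf x hx l hl, Finset.card_eq_zero, Nat.primeFactors_eq_empty] at h3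
        rcases h3 with h3 | h3
        · exact absurd h3 (Int.natAbs_ne_zero.2 ((hT x hx).1.1 l))
        · exact h3)
    refine ⟨h1, ?_⟩
    have h3 : (T.ncard : ℝ) ≤ 2 ^ (univ.erase k).card := by
      have h4 : T.ncard ≤ 2 ^ (univ.erase k).card := by
        refine h2.trans (le_of_eq ?_)
        rw [Set.ncard_singleton, mul_one, Finset.prod_const]
      exact_mod_cast h4
    calc (T.ncard : ℝ) ≤ 2 ^ (univ.erase k).card := h3
      _ ≤ 2 ^ n := pow_le_pow_right₀ (by norm_num) hcard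
      _ ≤ (2 * C * X ^ η) ^ n := pow_le_pow_left₀ (by norm_num) hb2 n
      _ ≤ (2 * C * X ^ η) ^ n * X ^ ρ := le_mul_of_one_le_right (by positivity) hXρ
  · have hwR : (0 : ℝ) < w := by exact_mod_cast hw0
    obtain ⟨B, hB⟩ : ∃ B, B = X ^ (ρ / w) - 2 := ⟨_, rfl⟩
    have hht1 : ∀ x ∈ T, (1 : ℝ) ≤ htn x := by
      intro x hx
      have h1 := le_htn x k
      have h2 : 1 ≤ (x k).natAbs := Int.natAbs_pos.2 ((hT x hx).1.1 k)
      exact_mod_cast h2.trans h1
    have hxB : ∀ x ∈ T, Real.log (htn x) / Real.log X ≤ B := by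
      intro x hx
      have h1 := (hT x hx).2.1
      unfold Cd at h1
      have hb : 0 ≤ Real.log (htn x) / Real.log X :=
        div_nonneg (Real.log_nonneg (hht1 x hx)) hl0.le
      have hlog : 0 ≤ Real.log (2 + Real.log (htn x) / Real.log X) :=
        Real.log_nonneg (by linarith)
      have h2 : (w : ℝ) * Real.log (2 + Real.log (htn x) / Real.log X) ≤ ρ * Real.log X :=
        (mul_le_mul_of_nonneg_right (by exact_mod_cast hwx x hx) hlog).trans h1
      have h3 : Real.log (2 + Real.log (htn x) / Real.log X) ≤ Real.log (X ^ (ρ / w)) := by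
        rw [Real.log_rpow hX0, div_mul_eq_mul_div, le_div_iff₀ hwR, mul_comm]
        exact h2
      have h4 := (Real.log_le_log_iff (by linarith) (Real.rpow_pos_of_pos hX0 _)).1 h3
      rw [hB]
      linarith
    have hB0 : 0 ≤ B := (div_nonneg (Real.log_nonneg (hht1 x₀ hx₀)) hl0.le).trans (hxB x₀ hx₀)
    obtain ⟨h1, h2⟩ := fib_one (k := k) (T := T) (fun x hx => (hT x hx).1)
      (fun l => {m : ℕ | m ≠ 0 ∧ pd m.primeFactors = r l ∧ Real.log m ≤ B * Real.log X})
      (fun l => (hMUL B (r l) hB0 (hr l)).1) (by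
        intro x hx l hl
        refine ⟨Int.natAbs_ne_zero.2 ((hT x hx).1.1 l), (hT x hx).2.2 l hl, ?_⟩
        have h3 : 0 < (x l).natAbs := Int.natAbs_pos.2 ((hT x hx).1.1 l)
        have h4 : Real.log ((x l).natAbs : ℝ) ≤ Real.log (htn x) :=
          Real.log_le_log (by exact_mod_cast h3) (by exact_mod_cast le_htn x l)
        have h5 := hxB x hx
        rw [div_le_iff₀ hl0] at h5
        exact h4.trans h5)
    refine ⟨h1, ?_⟩
    have h3 : (T.ncard : ℝ) ≤ ∏ l ∈ univ.erase k, (2 * ({m : ℕ | m ≠ 0 ∧ pd m.primeFactors = r l ∧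
        Real.log m ≤ B * Real.log X}.ncard : ℝ)) := by
      exact_mod_cast h2
    have h4 : ∏ l ∈ univ.erase k, (2 * ({m : ℕ | m ≠ 0 ∧ pd m.primeFactors = r l ∧
        Real.log m ≤ B * Real.log X}.ncard : ℝ)) ≤
        ∏ l ∈ univ.erase k, ((2 * C * X ^ η) * (2 + B) ^ (r l).primeFactors.card) := by
      refine Finset.prod_le_prod (fun l _ => by positivity) fun l _ => ?_
      have h5 := (hMUL B (r l) hB0 (hr l)).2
      nlinarith
    have h5 : (2 + B) ^ w = X ^ ρ := by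
      have h6 : 2 + B = X ^ (ρ / w) := by rw [hB]; ring
      rw [h6, ← Real.rpow_natCast, ← Real.rpow_mul hX0.le]
      congr 1
      field_simp
    calc (T.ncard : ℝ) ≤ ∏ l ∈ univ.erase k, ((2 * C * X ^ η) * (2 + B) ^ (r l).primeFactors.card) :=
          h3.trans h4
      _ = (2 * C * X ^ η) ^ (univ.erase k).card * (2 + B) ^ w := by
          rw [Finset.prod_mul_distrib, Finset.prod_const, Finset.prod_pow_eq_pow_sum, hw]
      _ ≤ (2 * C * X ^ η) ^ n * (2 + B) ^ w :=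
          mul_le_mul_of_nonneg_right (pow_le_pow_right₀ (by linarith) hcard) (by positivity)
      _ = _ := by rw [h5]

theorem harm_le {Z : ℝ} (hZ : 1 ≤ Z) :
    ∑ m ∈ Finset.Icc 1 ⌊Z⌋₊, (1 : ℝ) / (m : ℝ) ≤ 1 + Real.log Z := by
  have h1 := harmonic_le_one_add_log ⌊Z⌋₊
  rw [harmonic_eq_sum_Icc] at h1
  push_cast at h1
  have h2 : (1 : ℝ) ≤ ⌊Z⌋₊ := by
    have : 1 ≤ ⌊Z⌋₊ := Nat.le_floor (by push_cast; exact hZ)
    exact_mod_cast this
  have h3 : Real.log (⌊Z⌋₊ : ℝ) ≤ Real.log Z :=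
    Real.log_le_log (by linarith) (Nat.floor_le (by linarith))
  have h4 : ∑ m ∈ Finset.Icc 1 ⌊Z⌋₊, (1 : ℝ) / (m : ℝ) = ∑ m ∈ Finset.Icc 1 ⌊Z⌋₊, ((m : ℝ))⁻¹ :=
    Finset.sum_congr rfl fun m _ => one_div _
  rw [h4]
  linarith

/-- the number of the tuples of radicals -/
theorem rad_count {n : ℕ} {Z σ : ℝ} {k l₀ : Fin n} {S : Set ℕ} (hZ : 1 ≤ Z) (hσ : 0 ≤ σ)
    (hS : ∀ Y : ℝ, 1 ≤ Y → ((S ∩ Set.Icc 1 ⌊Y⌋₊).ncard : ℝ) ≤ σ * Y)
    (R : Finset (Fin n → ℕ)) (hR : ∀ r ∈ R, r k = 1 ∧ (∀ l, 1 ≤ r l) ∧ r l₀ ∈ S ∧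
      ((∏ l, r l : ℕ) : ℝ) ≤ Z) : (R.card : ℝ) ≤ σ * Z * (1 + Real.log Z) ^ n := by
  classical
  have hlog : 0 ≤ Real.log Z := Real.log_nonneg hZ
  set A : Fin n → Finset ℕ := fun l => if l = k ∨ l = l₀ then {1} else Finset.Icc 1 ⌊Z⌋₊ with hA
  have hmaps : ∀ r ∈ R, Function.update r l₀ 1 ∈ Fintype.piFinset A := by
    intro r hr
    obtain ⟨h1, h2, h3, h4⟩ := hR r hr
    rw [Fintype.mem_piFinset]
    intro l
    simp only [hA]
    by_cases hl0 : l = l₀
    · rw [if_pos (Or.inr hl0), hl0, Function.update_self]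
      exact Finset.mem_singleton_self _
    · rw [Function.update_of_ne hl0]
      by_cases hlk : l = k
      · rw [if_pos (Or.inl hlk), hlk, h1]
        exact Finset.mem_singleton_self _
      · rw [if_neg (by push Not; exact ⟨hlk, hl0⟩), Finset.mem_Icc]
        refine ⟨h2 l, Nat.le_floor (le_trans ?_ h4)⟩
        have h5 : r l ∣ ∏ l, r l := Finset.dvd_prod_of_mem r (Finset.mem_univ l)
        have h6 : 0 < ∏ l, r l := Finset.prod_pos fun l _ => h2 l
        exact_mod_cast Nat.le_of_dvd h6 h5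
  have hfib : ∀ b ∈ Fintype.piFinset A,
      ((R.filter fun r => Function.update r l₀ 1 = b).card : ℝ) ≤
        σ * Z * ∏ l, (1 : ℝ) / (b l : ℝ) := by
    intro b hb
    rcases (R.filter fun r => Function.update r l₀ 1 = b).eq_empty_or_nonempty with he | ⟨r₁, hr₁⟩
    · rw [he, Finset.card_empty, Nat.cast_zero]
      positivity
    have key : ∀ r ∈ R.filter (fun r => Function.update r l₀ 1 = b),
        ∏ l, r l = r l₀ * ∏ l, b l := by
      intro r hr
      obtain ⟨-, h2⟩ := Finset.mem_filter.1 hr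
      rw [← h2, ← Finset.mul_prod_erase _ r (Finset.mem_univ l₀),
        ← Finset.mul_prod_erase _ (Function.update r l₀ 1) (Finset.mem_univ l₀),
        Function.update_self, one_mul]
      congr 1
      exact Finset.prod_congr rfl fun l hl' => by
        rw [Function.update_of_ne (Finset.ne_of_mem_erase hl')]
    have hb1 : ∀ l, 1 ≤ b l := by
      intro l
      obtain ⟨h1, h2⟩ := Finset.mem_filter.1 hr₁
      rw [← h2]
      by_cases hl0 : l = l₀
      · rw [hl0, Function.update_self]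
      · rw [Function.update_of_ne hl0]
        exact (hR r₁ h1).2.1 l
    have hP : 0 < ∏ l, b l := Finset.prod_pos fun l _ => hb1 l
    have hPR : (0 : ℝ) < ((∏ l, b l : ℕ) : ℝ) := by exact_mod_cast hP
    have hPZ : 1 ≤ Z / ((∏ l, b l : ℕ) : ℝ) := by
      rw [le_div_iff₀ hPR, one_mul]
      obtain ⟨h1, h2⟩ := Finset.mem_filter.1 hr₁
      refine le_trans ?_ (hR r₁ h1).2.2.2
      rw [key r₁ hr₁]
      exact_mod_cast Nat.le_mul_of_pos_left _ ((hR r₁ h1).2.1 l₀)
    have hsub : ∀ r ∈ R.filter (fun r => Function.update r l₀ 1 = b),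
        r l₀ ∈ S ∩ Set.Icc 1 ⌊Z / ((∏ l, b l : ℕ) : ℝ)⌋₊ := by
      intro r hr
      obtain ⟨h1, h2⟩ := Finset.mem_filter.1 hr
      obtain ⟨h3, h4, h5, h6⟩ := hR r h1
      refine ⟨h5, h4 l₀, Nat.le_floor ?_⟩
      rw [le_div_iff₀ hPR]
      rw [key r hr] at h6
      push_cast at h6 ⊢
      exact h6
    have hinj : Set.InjOn (fun r : Fin n → ℕ => r l₀)
        (R.filter fun r => Function.update r l₀ 1 = b : Finset (Fin n → ℕ)) := by
      intro r hr s hs hrs
      obtain ⟨-, h2⟩ := Finset.mem_filter.1 (Finset.mem_coe.1 hr)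
      obtain ⟨-, h4⟩ := Finset.mem_filter.1 (Finset.mem_coe.1 hs)
      funext l
      by_cases hl0 : l = l₀
      · rw [hl0]
        exact hrs
      · have h5 := congrFun (h2.trans h4.symm) l
        rwa [Function.update_of_ne hl0, Function.update_of_ne hl0] at h5
    have hcard : (R.filter fun r => Function.update r l₀ 1 = b).card ≤
        (S ∩ Set.Icc 1 ⌊Z / ((∏ l, b l : ℕ) : ℝ)⌋₊).ncard := by
      rw [← Set.ncard_coe_finset]
      exact Set.ncard_le_ncard_of_injOn _ (fun r hr => hsub r (Finset.mem_coe.1 hr)) hinj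
        ((Set.finite_Icc _ _).subset Set.inter_subset_right)
    have h7 : ∏ l, (1 : ℝ) / (b l : ℝ) = 1 / ((∏ l, b l : ℕ) : ℝ) := by
      rw [Finset.prod_div_distrib, Finset.prod_const_one]
      push_cast
      rfl
    rw [h7]
    calc ((R.filter fun r => Function.update r l₀ 1 = b).card : ℝ) ≤
          ((S ∩ Set.Icc 1 ⌊Z / ((∏ l, b l : ℕ) : ℝ)⌋₊).ncard : ℝ) := by exact_mod_cast hcard
      _ ≤ σ * (Z / ((∏ l, b l : ℕ) : ℝ)) := hS _ hPZ
      _ = _ := by ring
  have hcardR : (R.card : ℝ) = ∑ b ∈ Fintype.piFinset A,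
      ((R.filter fun r => Function.update r l₀ 1 = b).card : ℝ) := by
    rw [Finset.card_eq_sum_card_fiberwise (f := fun r => Function.update r l₀ 1) hmaps]
    push_cast
    rfl
  rw [hcardR]
  refine (Finset.sum_le_sum hfib).trans ?_
  rw [← Finset.mul_sum, ← Finset.prod_univ_sum A fun _ m => (1 : ℝ) / (m : ℝ)]
  refine mul_le_mul_of_nonneg_left ?_ (mul_nonneg hσ (by linarith))
  calc ∏ l, ∑ m ∈ A l, (1 : ℝ) / (m : ℝ) ≤ ∏ _l : Fin n, (1 + Real.log Z) := by
        refine Finset.prod_le_prod (fun l _ => Finset.sum_nonneg fun m _ => by positivity)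
          fun l _ => ?_
        simp only [hA]
        split_ifs with h
        · rw [Finset.sum_singleton]
          norm_num
          exact hlog
        · exact harm_le hZ
    _ = (1 + Real.log Z) ^ n := by
        rw [Finset.prod_const, Finset.card_univ, Fintype.card_fin]

theorem pf_TRI (hMUL : T_MUL) : T_TRI := by
  classical
  intro n η hn hη
  have hn0 : (0 : ℝ) < n := by
    have : 0 < n := by omega
    exact_mod_cast this
  obtain ⟨e, he⟩ : ∃ e, e = η / (2 * n) := ⟨_, rfl⟩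
  have he0 : 0 < e := by rw [he]; positivity
  obtain ⟨C, hC, hM⟩ := hMUL e he0
  refine ⟨(2 * C) ^ n * (1 + 1 / e) ^ n, by positivity, ?_⟩
  intro X Z ρ σ k l₀ S hX hρ hσ hZ hZX hl hS
  have hX0 : 0 < X := by linarith
  have hX1 : 1 ≤ X := by linarith
  set V : Set (Fin n → ℤ) := {x : Fin n → ℤ | Admissible x ∧ (pd (prn x).primeFactors : ℝ) ≤ X ∧
    Cd ρ X x ∧ pd (x l₀).natAbs.primeFactors ∈ S ∧
    ∏ l ∈ Finset.univ.erase k, (pd (x l).natAbs.primeFactors : ℝ) ≤ Z} with hV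
  -- the radicals
  set R : Finset (Fin n → ℕ) := (Fintype.piFinset fun _ : Fin n => Finset.Icc 1 ⌊Z⌋₊).filter
    fun r => r k = 1 ∧ r l₀ ∈ S ∧ ((∏ l, r l : ℕ) : ℝ) ≤ Z with hR
  have hRmem : ∀ r ∈ R, r k = 1 ∧ (∀ l, 1 ≤ r l) ∧ r l₀ ∈ S ∧ ((∏ l, r l : ℕ) : ℝ) ≤ Z := by
    intro r hr
    obtain ⟨h1, h2, h3, h4⟩ := Finset.mem_filter.1 hr
    exact ⟨h2, fun l => (Finset.mem_Icc.1 (Fintype.mem_piFinset.1 h1 l)).1, h3, h4⟩
  have hRX : ∀ r ∈ R, ∀ l, (r l : ℝ) ≤ X := by
    intro r hr l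
    have h1 := (Finset.mem_Icc.1 (Fintype.mem_piFinset.1 (Finset.mem_filter.1 hr).1 l)).2
    have h2 : (r l : ℝ) ≤ ⌊Z⌋₊ := by exact_mod_cast h1
    exact (h2.trans (Nat.floor_le (by linarith))).trans hZX
  have hcount := rad_count hZ hσ hS R hRmem
  set φ : (Fin n → ℤ) → (Fin n → ℕ) := fun x l => if l = k then 1 else
    pd (x l).natAbs.primeFactors with hφ
  have hφR : ∀ x ∈ V, φ x ∈ R := by
    rintro x ⟨hx, -, -, hxS, hxZ⟩
    have hpos : ∀ l, 1 ≤ pd (x l).natAbs.primeFactors := fun l =>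
      Finset.prod_pos fun p hp => (Nat.prime_of_mem_primeFactors hp).pos
    have hpos' : ∀ l, 1 ≤ φ x l := by
      intro l
      simp only [hφ]
      split_ifs
      · exact le_rfl
      · exact hpos l
    have hprod : ((∏ l, φ x l : ℕ) : ℝ) ≤ Z := by
      refine le_trans (le_of_eq ?_) hxZ
      rw [← Finset.mul_prod_erase _ _ (Finset.mem_univ k)]
      have h1 : φ x k = 1 := by simp [hφ]
      rw [h1, one_mul, Nat.cast_prod]
      exact Finset.prod_congr rfl fun l hl' => by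
        simp only [hφ]
        rw [if_neg (Finset.ne_of_mem_erase hl')]
    rw [hR, Finset.mem_filter, Fintype.mem_piFinset]
    refine ⟨fun l => Finset.mem_Icc.2 ⟨hpos' l, Nat.le_floor (le_trans ?_ hprod)⟩, ?_, ?_, hprod⟩
    · have h5 : φ x l ∣ ∏ l, φ x l := Finset.dvd_prod_of_mem _ (Finset.mem_univ l)
      have h6 : 0 < ∏ l, φ x l := Finset.prod_pos fun l _ => hpos' l
      exact_mod_cast Nat.le_of_dvd h6 h5
    · simp [hφ]
    · simp only [hφ]
      rw [if_neg hl]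
      exact hxS
  have hfib : ∀ r ∈ R, {x | x ∈ V ∧ φ x = r}.Finite ∧
      ({x | x ∈ V ∧ φ x = r}.ncard : ℝ) ≤ (2 * C * X ^ e) ^ n * X ^ ρ := by
    intro r hr
    refine fib_two (k := k) hC he0.le hX hρ (fun B s hB hs => hM X B s hX hB hs) r (hRX r hr) ?_
    rintro x ⟨hx, hxr⟩
    refine ⟨hx.1, hx.2.2.1, fun l hlk => ?_⟩
    have h1 := congrFun hxr l
    simp only [hφ] at h1
    rwa [if_neg hlk] at h1
  have hVU : V ⊆ ⋃ r ∈ R, {x | x ∈ V ∧ φ x = r} := by
    intro x hx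
    simp only [Set.mem_iUnion]
    exact ⟨φ x, hφR x hx, hx, rfl⟩
  have hfinU : (⋃ r ∈ R, {x | x ∈ V ∧ φ x = r}).Finite :=
    Set.Finite.biUnion (Finset.finite_toSet R) fun r hr => (hfib r (Finset.mem_coe.1 hr)).1
  have hVf : V.Finite := hfinU.subset hVU
  refine ⟨hVf, ?_⟩
  have h1 : (V.ncard : ℝ) ≤ ∑ r ∈ R, ({x | x ∈ V ∧ φ x = r}.ncard : ℝ) := by
    have h2 : V.ncard ≤ ∑ r ∈ R, {x | x ∈ V ∧ φ x = r}.ncard := by
      rw [Set.ncard_eq_toFinset_card V hVf]
      have h3 : ∀ x ∈ hVf.toFinset, φ x ∈ R := fun x hx => hφR x (hVf.mem_toFinset.1 hx)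
      rw [Finset.card_eq_sum_card_fiberwise h3]
      refine Finset.sum_le_sum fun r hr => ?_
      rw [← Set.ncard_coe_finset]
      refine Set.ncard_le_ncard (fun x hx => ?_) (hfib r hr).1
      obtain ⟨h4, h5⟩ := Finset.mem_filter.1 (Finset.mem_coe.1 hx)
      exact ⟨hVf.mem_toFinset.1 h4, h5⟩
    exact_mod_cast h2
  have h2 : ∑ r ∈ R, ({x | x ∈ V ∧ φ x = r}.ncard : ℝ) ≤
      (R.card : ℝ) * ((2 * C * X ^ e) ^ n * X ^ ρ) := by
    refine (Finset.sum_le_sum fun r hr => (hfib r hr).2).trans (le_of_eq ?_)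
    rw [Finset.sum_const, nsmul_eq_mul]
  have hlogZ : 1 + Real.log Z ≤ (1 + 1 / e) * X ^ e := by
    have h3 : Real.log Z ≤ Real.log X := Real.log_le_log (by linarith) hZX
    have h4 : Real.log X ≤ X ^ e / e := Real.log_le_rpow_div hX0.le he0
    have h5 : 1 ≤ X ^ e := Real.one_le_rpow hX1 he0.le
    have h6 : (1 + 1 / e) * X ^ e = X ^ e + X ^ e / e := by ring
    rw [h6]
    linarith
  have hlogZ0 : 0 ≤ 1 + Real.log Z := by linarith [Real.log_nonneg hZ]
  have hD0 : 0 ≤ (2 * C * X ^ e) ^ n * X ^ ρ := by positivity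
  have hσZ : 0 ≤ σ * Z := mul_nonneg hσ (by linarith)
  have hXe : (X ^ e) ^ n * (X ^ e) ^ n = X ^ η := by
    rw [← Real.rpow_natCast, ← Real.rpow_mul hX0.le, ← Real.rpow_add hX0]
    congr 1
    rw [he]
    field_simp
    ring
  calc (V.ncard : ℝ) ≤ (R.card : ℝ) * ((2 * C * X ^ e) ^ n * X ^ ρ) := h1.trans h2
    _ ≤ (σ * Z * (1 + Real.log Z) ^ n) * ((2 * C * X ^ e) ^ n * X ^ ρ) :=
        mul_le_mul_of_nonneg_right hcount hD0
    _ ≤ (σ * Z * ((1 + 1 / e) * X ^ e) ^ n) * ((2 * C * X ^ e) ^ n * X ^ ρ) :=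
        mul_le_mul_of_nonneg_right (mul_le_mul_of_nonneg_left
          (pow_le_pow_left₀ hlogZ0 hlogZ n) hσZ) hD0
    _ = (2 * C) ^ n * (1 + 1 / e) ^ n * σ * Z * (X ^ ρ * ((X ^ e) ^ n * (X ^ e) ^ n)) := by
        rw [mul_pow, mul_pow]
        ring
    _ = (2 * C) ^ n * (1 + 1 / e) ^ n * σ * Z * X ^ (ρ + η) := by
        rw [hXe, Real.rpow_add hX0]

end Pool.Agent.H38.AT
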