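import Mathlib
import Pool.Agent.H38.AE.Statement
import Pool.Agent.H38.AE.TargetsN
import Pool.Agent.H38.AG.Targets
import Pool.Agent.H23.AF.Targets

/-!
# The sharp exponent `1 / n` for almost all admissible `n`-tuples (MP_7ecdd4_nt): targets

Every `T_XXX : Prop` is to be proved as a theorem `pf_XXX : T_XXX` in its own file, other targets
being hypotheses.
-/

set_option autoImplicit false

open Pool.Agent.H38.AE.Statement (Admissible radical)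
open Pool.Agent.H38.PS (pd)
open Pool.Agent.H38.RB (tp)
open Pool.Agent.H38.AE (RR rad NT NJ)
open Pool.Agent.H38.AB (Nf Lo)
open Pool.Agent.H23.AF (w5)

namespace Pool.Agent.H38.AT

/-- the absolute value of the product of the entries -/
def prn {n : ℕ} (x : Fin n → ℤ) : ℕ := (∏ i, x i).natAbs

/-- the largest entry in absolute value -/
def htn {n : ℕ} (x : Fin n → ℤ) : ℕ := Finset.univ.sup fun i => (x i).natAbs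

/-- there are few prime factors, in comparison with the height -/
def Cd (ρ X : ℝ) {n : ℕ} (x : Fin n → ℤ) : Prop :=
  ((prn x).primeFactors.card : ℝ) * Real.log (2 + Real.log (htn x) / Real.log X) ≤
    ρ * Real.log X

/-- the reduced tuples: small radical, all entries have a large radical, there are few primes -/
def RdN (n : ℕ) (X ρ : ℝ) : Set (Fin n → ℤ) :=
  {x | Admissible x ∧ (pd (prn x).primeFactors : ℝ) ≤ X ∧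
    (∀ i, X ^ (1 / (n : ℝ) - ρ) ≤ (pd (x i).natAbs.primeFactors : ℝ)) ∧
    ((prn x).primeFactors.card : ℝ) * Real.log (Real.log X) ≤ ρ * Real.log X}

/-! ## Part 1: polynomial height -/

/-- tuples with a good divisor `q` of the entry `k`, small modulus -/
def NW (n H : ℕ) (Z : ℝ) : Set (Fin n → ℤ) :=
  {x | x ∈ Pool.Agent.H38.AE.Adm n H ∧ ∃ (i j k : Fin n) (q : ℕ), i ≠ j ∧ i ≠ k ∧ j ≠ k ∧ 1 ≤ q ∧
    (q : ℤ) ∣ x k ∧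
    (rad q : ℝ) * (∏ l ∈ Finset.univ.filter (fun l => l ≠ i ∧ l ≠ j ∧ l ≠ k), RR (x l)) *
      Real.sqrt (w5 q (RR (x i)) * w5 q (RR (x j))) ≤ Z}

/-- NWC: the energy bound. -/
def T_NWC : Prop := ∀ (n : ℕ) (ε : ℝ), 0 < ε → ∃ C : ℝ, 0 < C ∧ ∀ (H : ℕ) (Z : ℝ), 1 ≤ H →
  0 ≤ Z → ((NW n H Z).ncard : ℝ) ≤ C * (H : ℝ) ^ ε * Z

/-- CVE: a good set of primes of an entry. -/
def T_CVE : Prop := ∀ (n H : ℕ) (x : Fin n → ℤ) (i j k : Fin n) (X W z g γ : ℝ) (G : Finset ℕ),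
  x ∈ Pool.Agent.H38.AE.Adm n H → i ≠ j → i ≠ k → j ≠ k → 1 < X → 0 ≤ W →
  (∀ l, Real.log (RR (x l)) ≤ W * Real.log X) → G ⊆ (x k).natAbs.primeFactors →
  g * Real.log X = ∑ p ∈ G, Real.log p →
  γ * Real.log X = ∑ p ∈ G, ((x k).natAbs.factorization p : ℝ) * Real.log p →
  g + (n - 2) * W ≤ z → g + (n - 1) * W - γ ≤ z → g + (n - 3) * W + 9 / 5 * W - 3 / 5 * γ ≤ z →
  g + (n - 3) * W + 7 / 5 * W - 1 / 5 * γ ≤ z → x ∈ NW n H (4 * X ^ z)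

/-- CVJ: two large primes with exponents at least `2`. -/
def T_CVJ : Prop := ∀ (n H K : ℕ) (x : Fin n → ℤ) (i j : Fin n) (X W c z : ℝ) (p r : ℕ),
  x ∈ Pool.Agent.H38.AE.Adm n H → i ≠ j → 1 < X →
  (∀ l, Real.log (RR (x l)) ≤ W * Real.log X) → p ∈ (x i).natAbs.primeFactors →
  r ∈ (x j).natAbs.primeFactors → 2 ≤ (x i).natAbs.factorization p →
  (x i).natAbs.factorization p ≤ K → 2 ≤ (x j).natAbs.factorization r →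
  (x j).natAbs.factorization r ≤ K → (W - c) * Real.log X ≤ Real.log p →
  (W - c) * Real.log X ≤ Real.log r → 2 * c + (n - 2) * W + 2 / 3 * W ≤ z →
  x ∈ NJ n H (X ^ z) (1 / 3) 1 K

/-- COV: every tuple of polynomial height is in one of the classes. -/
def T_COV : Prop := ∀ (n : ℕ) (ε A : ℝ), 3 ≤ n → 0 < ε → 1 ≤ A →
  ∃ (c X₀ : ℝ) (K : ℕ), 0 < c ∧ 2 ≤ X₀ ∧ ∀ (X : ℝ) (H : ℕ) (x : Fin n → ℤ), X₀ ≤ X →
  x ∈ Pool.Agent.H38.AE.Adm n H → (pd (prn x).primeFactors : ℝ) ≤ X →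
  X ^ (1 / (n : ℝ) + ε) ≤ (htn x : ℝ) → Real.log (htn x) ≤ A * Real.log X →
  x ∈ NT n H (4 * X ^ (1 - 1 / (n : ℝ) - c)) ∪ NW n H (4 * X ^ (1 - 1 / (n : ℝ) - c)) ∪
    NJ n H (4 * X ^ (1 - 1 / (n : ℝ) - c)) (1 / 3) 1 K

/-- POL: the tuples of polynomial height. -/
def T_POL : Prop := ∀ (n : ℕ) (ε A : ℝ), 3 ≤ n → 0 < ε → 1 ≤ A → ∃ c C : ℝ, 0 < c ∧ 0 < C ∧
  ∀ X : ℝ, 1 ≤ X →
  {x : Fin n → ℤ | Admissible x ∧ (pd (prn x).primeFactors : ℝ) ≤ X ∧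
    (pd (prn x).primeFactors : ℝ) ^ (1 / (n : ℝ) + ε) < (htn x : ℝ) ∧
    Real.log (htn x) ≤ A * Real.log X}.Finite ∧
  ({x : Fin n → ℤ | Admissible x ∧ (pd (prn x).primeFactors : ℝ) ≤ X ∧
    (pd (prn x).primeFactors : ℝ) ^ (1 / (n : ℝ) + ε) < (htn x : ℝ) ∧
    Real.log (htn x) ≤ A * Real.log X}.ncard : ℝ) ≤ C * X ^ (1 - 1 / (n : ℝ) - c)

/-! ## Part 2: large height -/

/-- tuples with small radical, few prime factors and small exponents -/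
def FwN (n : ℕ) (X : ℝ) (Ω V : ℕ) : Set (Fin n → ℤ) :=
  {x | Admissible x ∧ (pd (prn x).primeFactors : ℝ) ≤ X ∧ (prn x).primeFactors.card ≤ Ω ∧
    ∀ p, (prn x).factorization p ≤ V}

/-- a good modulus -/
def PEN (X Z : ℝ) {n : ℕ} (x : Fin n → ℤ) : Prop :=
  ∃ (i j k : Fin n) (G : Finset ℕ), i ≠ j ∧ i ≠ k ∧ j ≠ k ∧ G ⊆ (x k).natAbs.primeFactors ∧
    X ^ 4 ≤ (tp G (x k).natAbs : ℝ) ∧
    (pd G : ℝ) * (∏ l ∈ Finset.univ.filter (fun l => l ≠ i ∧ l ≠ j ∧ l ≠ k),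
      (pd (x l).natAbs.primeFactors : ℝ)) *
      Real.sqrt ((pd (x i).natAbs.primeFactors : ℝ) * pd (x j).natAbs.primeFactors) ≤ Z

/-- two primes with exponents at least `2` -/
def PJN (Z : ℝ) {n : ℕ} (x : Fin n → ℤ) : Prop :=
  ∃ (i j : Fin n) (p r : ℕ), i ≠ j ∧ p.Prime ∧ r.Prime ∧ 1 < (x i).natAbs.factorization p ∧
    1 < (x j).natAbs.factorization r ∧
    (pd (prn x).primeFactors : ℝ) * ((p : ℝ) * r) ^ (1 / 3 : ℝ) ≤ Z * (p * r)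

/-- CLN: the tuples with a good modulus. -/
def T_CLN : Prop := ∀ n : ℕ, ∃ (K : ℕ) (C : ℝ), 0 < C ∧ ∀ (X Z : ℝ) (Ω V : ℕ), 2 ≤ X → 0 ≤ Z →
  {x | x ∈ FwN n X Ω V ∧ PEN X Z x}.Finite ∧
  ({x | x ∈ FwN n X Ω V ∧ PEN X Z x}.ncard : ℝ) ≤ C * Z * Lo K X Ω V

/-- CJN: the tuples with two primes with exponents at least `2`. -/
def T_CJN : Prop := ∀ (n : ℕ) (ε : ℝ), 0 < ε → ∃ (K : ℕ) (C : ℝ), 0 < C ∧
  ∀ (X Z : ℝ) (Ω V : ℕ), 2 ≤ X → 0 ≤ Z → (V : ℝ) ≤ X ^ ε →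
  {x | x ∈ FwN n X Ω V ∧ PJN Z x}.Finite ∧
  ({x | x ∈ FwN n X Ω V ∧ PJN Z x}.ncard : ℝ) ≤ C * Z * X ^ (100 * ε) * Lo K X Ω V

/-- SLN: every reduced tuple of large height is in one of the classes. -/
def T_SLN : Prop := ∀ n : ℕ, 3 ≤ n → ∃ A₀ ρ c : ℝ, 1 ≤ A₀ ∧ 0 < ρ ∧ 0 < c ∧
  ∀ (X : ℝ) (x : Fin n → ℤ), 2 ≤ X → x ∈ RdN n X ρ → A₀ * Real.log X ≤ Real.log (htn x) →
  PEN X (X ^ (1 - 1 / (n : ℝ) - c)) x ∨ PJN (X ^ (1 - 1 / (n : ℝ) - c)) x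

/-- NUN: the loss is small. -/
def T_NUN : Prop := ∀ (K : ℕ) (η : ℝ), 0 < η → ∃ ρ C : ℝ, 0 < ρ ∧ 1 ≤ C ∧
  ∀ (X : ℝ) (Ω V : ℕ), 16 ≤ X → 1 ≤ Ω →
  (Ω : ℝ) * Real.log (Real.log X) ≤ ρ * Real.log X →
  (V : ℝ) ≤ 10 * Real.log X * X ^ (ρ / Ω) → Lo K X Ω V ≤ C * X ^ η

/-- RGN: the reduced tuples of large height. -/
def T_RGN : Prop := ∀ n : ℕ, 3 ≤ n → ∃ A₀ ρ c C X₁ : ℝ, 1 ≤ A₀ ∧ 0 < ρ ∧ 0 < c ∧ 0 < C ∧
  16 ≤ X₁ ∧ ∀ X : ℝ, X₁ ≤ X →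
  {x | x ∈ RdN n X ρ ∧ Cd ρ X x ∧ A₀ * Real.log X ≤ Real.log (htn x)}.Finite ∧
  ({x | x ∈ RdN n X ρ ∧ Cd ρ X x ∧ A₀ * Real.log X ≤ Real.log (htn x)}.ncard : ℝ) ≤
    C * X ^ (1 - 1 / (n : ℝ) - c)

/-! ## Part 3: the tuples which are not reduced -/

/-- MUL: the numbers with given radical. -/
def T_MUL : Prop := ∀ η : ℝ, 0 < η → ∃ C : ℝ, 1 ≤ C ∧ ∀ (X B : ℝ) (r : ℕ), 2 ≤ X → 0 ≤ B →
  (r : ℝ) ≤ X →
  {m : ℕ | m ≠ 0 ∧ pd m.primeFactors = r ∧ Real.log m ≤ B * Real.log X}.Finite ∧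
  ({m : ℕ | m ≠ 0 ∧ pd m.primeFactors = r ∧ Real.log m ≤ B * Real.log X}.ncard : ℝ) ≤
    C * X ^ η * (2 + B) ^ r.primeFactors.card

/-- TRI: the bound by `n - 1` radicals, one of which is in a given set. -/
def T_TRI : Prop := ∀ (n : ℕ) (η : ℝ), 2 ≤ n → 0 < η → ∃ C : ℝ, 0 < C ∧
  ∀ (X Z ρ σ : ℝ) (k l₀ : Fin n) (S : Set ℕ), 2 ≤ X → 0 ≤ ρ → 0 ≤ σ → 1 ≤ Z → Z ≤ X → l₀ ≠ k →
  (∀ Y : ℝ, 1 ≤ Y → ((S ∩ Set.Icc 1 ⌊Y⌋₊).ncard : ℝ) ≤ σ * Y) →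
  {x : Fin n → ℤ | Admissible x ∧ (pd (prn x).primeFactors : ℝ) ≤ X ∧ Cd ρ X x ∧
    pd (x l₀).natAbs.primeFactors ∈ S ∧
    ∏ l ∈ Finset.univ.erase k, (pd (x l).natAbs.primeFactors : ℝ) ≤ Z}.Finite ∧
  ({x : Fin n → ℤ | Admissible x ∧ (pd (prn x).primeFactors : ℝ) ≤ X ∧ Cd ρ X x ∧
    pd (x l₀).natAbs.primeFactors ∈ S ∧
    ∏ l ∈ Finset.univ.erase k, (pd (x l).natAbs.primeFactors : ℝ) ≤ Z}.ncard : ℝ) ≤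
    C * σ * Z * X ^ (ρ + η)

/-- NRN: the tuples which are not reduced. -/
def T_NRN : Prop := ∀ (n : ℕ) (ρ' : ℝ), 3 ≤ n → 0 < ρ' → ∃ ρ c C X₁ : ℝ, 0 < ρ ∧ 0 < c ∧
  0 < C ∧ 16 ≤ X₁ ∧ ∀ X : ℝ, X₁ ≤ X →
  {x : Fin n → ℤ | Admissible x ∧ (pd (prn x).primeFactors : ℝ) ≤ X ∧ Cd ρ X x ∧
    x ∉ RdN n X ρ'}.Finite ∧
  ({x : Fin n → ℤ | Admissible x ∧ (pd (prn x).primeFactors : ℝ) ≤ X ∧ Cd ρ X x ∧
    x ∉ RdN n X ρ'}.ncard : ℝ) ≤ C * X ^ (1 - 1 / (n : ℝ) - c)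

/-! ## Part 4 -/

/-- LWN: the lower bound for the number of all tuples. -/
def T_LWN : Prop := ∀ n : ℕ, 3 ≤ n → ∃ c : ℝ, 0 < c ∧ ∀ X : ℝ, 2 ≤ X →
  c * X ^ (1 - 1 / (n : ℝ)) ≤ ({x : Fin n → ℤ | Admissible x ∧
    (pd (prn x).primeFactors : ℝ) ≤ X ∧ (htn x : ℝ) ≤ X}.ncard : ℝ)

/-- ALN: almost all tuples have height at most `rad ^ (1 / n + ε)`. -/
def T_ALN : Prop := ∀ (n : ℕ) (ε : ℝ), 3 ≤ n → 0 < ε → ∃ ρ c C : ℝ, 0 < ρ ∧ 0 < c ∧ 0 < C ∧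
  ∀ X : ℝ, 2 ≤ X →
  {x : Fin n → ℤ | Admissible x ∧ (pd (prn x).primeFactors : ℝ) ≤ X ∧ Cd ρ X x ∧
    (pd (prn x).primeFactors : ℝ) ^ (1 / (n : ℝ) + ε) < (htn x : ℝ)}.Finite ∧
  ({x : Fin n → ℤ | Admissible x ∧ (pd (prn x).primeFactors : ℝ) ≤ X ∧ Cd ρ X x ∧
    (pd (prn x).primeFactors : ℝ) ^ (1 / (n : ℝ) + ε) < (htn x : ℝ)}.ncard : ℝ) ≤
    C * X ^ (1 - 1 / (n : ℝ) - c)

end Pool.Agent.H38.AT
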