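import Pool.Agent.H38.AT.TRI

/-!
# Tuples of radicals with weights: all tuples of height at most `exp ((log X) ^ (2 - κ))`
-/

set_option autoImplicit false

open Pool.Agent.H38.AE.Statement (Admissible radical)
open Pool.Agent.H38.PS (pd)
open Finset

namespace Pool.Agent.H38.AT

/-- a divisor sum -/
theorem sum_pow_omega (D N : ℕ) :
    ∑ m ∈ (Finset.Icc 1 N).filter Squarefree, ((D : ℝ) ^ m.primeFactors.card / (m : ℝ)) ≤
      (∑ m ∈ Finset.Icc 1 N, (1 : ℝ) / (m : ℝ)) ^ D := by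
  classical
  set M : Finset ℕ := (Finset.Icc 1 N).filter Squarefree with hM
  have h1 : ∀ m ∈ M, ((D : ℝ) ^ m.primeFactors.card / (m : ℝ)) =
      ∑ f ∈ Nat.finMulAntidiag D m, ∏ i, (1 : ℝ) / (f i : ℝ) := by
    intro m hm
    obtain ⟨hm1, hm2⟩ := Finset.mem_filter.1 hm
    have h2 : ∀ f ∈ Nat.finMulAntidiag D m, ∏ i, (1 : ℝ) / (f i : ℝ) = 1 / (m : ℝ) := by
      intro f hf
      rw [Finset.prod_div_distrib, Finset.prod_const_one, ← Nat.prod_eq_of_mem_finMulAntidiag hf]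
      push_cast
      rfl
    rw [Finset.sum_congr rfl h2, Finset.sum_const, Nat.card_finMulAntidiag_of_squarefree hm2,
      nsmul_eq_mul, ArithmeticFunction.cardDistinctFactors_apply, ← List.card_toFinset,
      Nat.toFinset_factors]
    push_cast
    ring
  have hdisj : (M : Set ℕ).PairwiseDisjoint (Nat.finMulAntidiag D) := by
    intro a _ b _ hab
    rw [Function.onFun, Finset.disjoint_left]
    intro f hf hg
    exact hab ((Nat.prod_eq_of_mem_finMulAntidiag hf).symm.trans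
      (Nat.prod_eq_of_mem_finMulAntidiag hg))
  rw [Finset.sum_congr rfl h1, ← Finset.sum_biUnion hdisj]
  have h3 : (∑ m ∈ Finset.Icc 1 N, (1 : ℝ) / (m : ℝ)) ^ D =
      ∑ f ∈ Fintype.piFinset (fun _ : Fin D => Finset.Icc 1 N), ∏ i, (1 : ℝ) / (f i : ℝ) := by
    rw [← Finset.prod_univ_sum (fun _ : Fin D => Finset.Icc 1 N) fun _ m => (1 : ℝ) / (m : ℝ),
      Finset.prod_const, Finset.card_univ, Fintype.card_fin]
  rw [h3]
  refine Finset.sum_le_sum_of_subset_of_nonneg (fun f hf => ?_)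
    fun f _ _ => Finset.prod_nonneg fun i _ => by positivity
  obtain ⟨m, hm, hf⟩ := Finset.mem_biUnion.1 hf
  obtain ⟨hm1, -⟩ := Finset.mem_filter.1 hm
  obtain ⟨hm3, hm4⟩ := Finset.mem_Icc.1 hm1
  rw [Fintype.mem_piFinset]
  intro i
  have h4 := Nat.dvd_of_mem_finMulAntidiag hf i
  have h5 := Nat.ne_zero_of_mem_finMulAntidiag hf i
  exact Finset.mem_Icc.2 ⟨Nat.one_le_iff_ne_zero.2 h5, (Nat.le_of_dvd hm3 h4).trans hm4⟩

/-- the weighted number of the tuples of radicals -/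
theorem rad_count_w {n D : ℕ} {Z w z u : ℝ} {k l₀ : Fin n} (hZ : 1 ≤ Z) (hw : 1 ≤ w) (hz : 1 ≤ z)
    (hD : z * w ≤ D) (hl : l₀ ≠ k) (R : Finset (Fin n → ℕ)) (hR : ∀ r ∈ R, (∀ l, 1 ≤ r l) ∧
      (∀ l, Squarefree (r l)) ∧ u ≤ (r l₀).primeFactors.card ∧ ((∏ l, r l : ℕ) : ℝ) ≤ Z) :
    ∑ r ∈ R, ∏ l ∈ univ.erase k, w ^ (r l).primeFactors.card ≤
      z ^ (-u) * Z * ((1 + Real.log Z) ^ D) ^ n := by
  classical
  have hlog : 0 ≤ Real.log Z := Real.log_nonneg hZ
  have hD0 : (1 : ℝ) ≤ D := by nlinarith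
  set M : Finset ℕ := (Finset.Icc 1 ⌊Z⌋₊).filter Squarefree with hM
  have h1 : ∀ r ∈ R, ∏ l ∈ univ.erase k, w ^ (r l).primeFactors.card ≤
      z ^ (-u) * Z * ∏ l, ((D : ℝ) ^ (r l).primeFactors.card / (r l : ℝ)) := by
    intro r hr
    obtain ⟨hr1, hr2, hr3, hr4⟩ := hR r hr
    have hP : (0 : ℝ) < ((∏ l, r l : ℕ) : ℝ) := by
      exact_mod_cast Finset.prod_pos fun l _ => hr1 l
    have h2 : z ^ u ≤ ∏ l ∈ univ.erase k, z ^ (r l).primeFactors.card := by
      have h3 : z ^ u ≤ z ^ (r l₀).primeFactors.card := by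
        rw [← Real.rpow_natCast]
        exact Real.rpow_le_rpow_of_exponent_le hz hr3
      refine h3.trans ?_
      rw [← Finset.mul_prod_erase (univ.erase k) _ (Finset.mem_erase.2 ⟨hl, Finset.mem_univ _⟩)]
      refine le_mul_of_one_le_right (by positivity) ?_
      calc (1 : ℝ) = ∏ _l ∈ (univ.erase k).erase l₀, (1 : ℝ) := Finset.prod_const_one.symm
        _ ≤ _ := Finset.prod_le_prod (fun _ _ => zero_le_one) fun l _ => one_le_pow₀ hz
    have h4 : (∏ l ∈ univ.erase k, w ^ (r l).primeFactors.card) * z ^ u ≤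
        ∏ l, (D : ℝ) ^ (r l).primeFactors.card := by
      calc (∏ l ∈ univ.erase k, w ^ (r l).primeFactors.card) * z ^ u
          ≤ (∏ l ∈ univ.erase k, w ^ (r l).primeFactors.card) *
            ∏ l ∈ univ.erase k, z ^ (r l).primeFactors.card :=
            mul_le_mul_of_nonneg_left h2 (Finset.prod_nonneg fun l _ => by positivity)
        _ = ∏ l ∈ univ.erase k, (z * w) ^ (r l).primeFactors.card := by
            rw [← Finset.prod_mul_distrib]
            exact Finset.prod_congr rfl fun l _ => by rw [mul_pow, mul_comm]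
        _ ≤ ∏ l ∈ univ.erase k, (D : ℝ) ^ (r l).primeFactors.card :=
            Finset.prod_le_prod (fun l _ => by positivity) fun l _ =>
              pow_le_pow_left₀ (by positivity) hD _
        _ ≤ ∏ l, (D : ℝ) ^ (r l).primeFactors.card := by
            rw [← Finset.mul_prod_erase _ _ (Finset.mem_univ k)]
            exact le_mul_of_one_le_left (Finset.prod_nonneg fun l _ => by positivity)
              (one_le_pow₀ hD0)
    have hzu : 0 < z ^ u := Real.rpow_pos_of_pos (by linarith) _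
    have h5 : ∏ l ∈ univ.erase k, w ^ (r l).primeFactors.card ≤
        z ^ (-u) * ∏ l, (D : ℝ) ^ (r l).primeFactors.card := by
      rw [Real.rpow_neg (by linarith), inv_mul_eq_div, le_div_iff₀ hzu]
      exact h4
    refine h5.trans ?_
    rw [mul_assoc]
    refine mul_le_mul_of_nonneg_left ?_ (Real.rpow_nonneg (by linarith) _)
    rw [Finset.prod_div_distrib, ← Nat.cast_prod, mul_div_assoc', le_div_iff₀ hP, mul_comm]
    exact mul_le_mul_of_nonneg_right hr4 (Finset.prod_nonneg fun l _ => by positivity)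
  refine (Finset.sum_le_sum h1).trans ?_
  rw [← Finset.mul_sum]
  refine mul_le_mul_of_nonneg_left ?_
    (mul_nonneg (Real.rpow_nonneg (by linarith) _) (by linarith))
  have hsub : R ⊆ Fintype.piFinset fun _ : Fin n => M := by
    intro r hr
    obtain ⟨hr1, hr2, hr3, hr4⟩ := hR r hr
    rw [Fintype.mem_piFinset]
    intro l
    refine Finset.mem_filter.2 ⟨Finset.mem_Icc.2 ⟨hr1 l, Nat.le_floor (le_trans ?_ hr4)⟩, hr2 l⟩
    have h5 : r l ∣ ∏ l, r l := Finset.dvd_prod_of_mem r (Finset.mem_univ l)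
    have h6 : 0 < ∏ l, r l := Finset.prod_pos fun l _ => hr1 l
    exact_mod_cast Nat.le_of_dvd h6 h5
  calc ∑ r ∈ R, ∏ l, ((D : ℝ) ^ (r l).primeFactors.card / (r l : ℝ))
      ≤ ∑ r ∈ Fintype.piFinset (fun _ : Fin n => M),
        ∏ l, ((D : ℝ) ^ (r l).primeFactors.card / (r l : ℝ)) :=
        Finset.sum_le_sum_of_subset_of_nonneg hsub fun r _ _ =>
          Finset.prod_nonneg fun l _ => by positivity
    _ = (∑ m ∈ M, ((D : ℝ) ^ m.primeFactors.card / (m : ℝ))) ^ n := by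
        rw [← Finset.prod_univ_sum (fun _ : Fin n => M) fun _ m =>
          ((D : ℝ) ^ m.primeFactors.card / (m : ℝ)), Finset.prod_const, Finset.card_univ,
          Fintype.card_fin]
    _ ≤ ((1 + Real.log Z) ^ D) ^ n := by
        refine pow_le_pow_left₀ (Finset.sum_nonneg fun m _ => by positivity) ?_ n
        refine (sum_pow_omega D ⌊Z⌋₊).trans ?_
        exact pow_le_pow_left₀ (Finset.sum_nonneg fun m _ => by positivity) (harm_le hZ) D

/-- tuples with given radicals of the entries different from `x k`, bounded height -/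
theorem fib_three {n : ℕ} {C η X B : ℝ} {k : Fin n} (hC : 1 ≤ C) (hη : 0 ≤ η) (hX : 2 ≤ X)
    (hB : 0 ≤ B)
    (hMUL : ∀ (r : ℕ), (r : ℝ) ≤ X →
      {m : ℕ | m ≠ 0 ∧ pd m.primeFactors = r ∧ Real.log m ≤ B * Real.log X}.Finite ∧
      ({m : ℕ | m ≠ 0 ∧ pd m.primeFactors = r ∧ Real.log m ≤ B * Real.log X}.ncard : ℝ) ≤
        C * X ^ η * (2 + B) ^ r.primeFactors.card)
    (r : Fin n → ℕ) (hr : ∀ l, (r l : ℝ) ≤ X) {T : Set (Fin n → ℤ)}
    (hT : ∀ x ∈ T, Admissible x ∧ Real.log (htn x) ≤ B * Real.log X ∧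
      ∀ l, l ≠ k → pd (x l).natAbs.primeFactors = r l) :
    T.Finite ∧ (T.ncard : ℝ) ≤ (2 * C * X ^ η) ^ n *
      ∏ l ∈ univ.erase k, (2 + B) ^ (r l).primeFactors.card := by
  classical
  have hX1 : 1 ≤ X := by linarith
  have hXη : 1 ≤ X ^ η := Real.one_le_rpow hX1 hη
  have hb2 : 2 ≤ 2 * C * X ^ η := by nlinarith
  have hcard : (univ.erase k).card ≤ n := by
    refine (Finset.card_le_card (Finset.erase_subset _ _)).trans ?_
    rw [Finset.card_univ, Fintype.card_fin]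
  obtain ⟨h1, h2⟩ := fib_one (k := k) (T := T) (fun x hx => (hT x hx).1)
    (fun l => {m : ℕ | m ≠ 0 ∧ pd m.primeFactors = r l ∧ Real.log m ≤ B * Real.log X})
    (fun l => (hMUL (r l) (hr l)).1) (by
      intro x hx l hl
      refine ⟨Int.natAbs_ne_zero.2 ((hT x hx).1.1 l), (hT x hx).2.2 l hl, ?_⟩
      have h3 : 0 < (x l).natAbs := Int.natAbs_pos.2 ((hT x hx).1.1 l)
      have h4 : Real.log ((x l).natAbs : ℝ) ≤ Real.log (htn x) :=
        Real.log_le_log (by exact_mod_cast h3) (by exact_mod_cast le_htn x l)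
      exact h4.trans (hT x hx).2.1)
  refine ⟨h1, ?_⟩
  have h3 : (T.ncard : ℝ) ≤ ∏ l ∈ univ.erase k, (2 * ({m : ℕ | m ≠ 0 ∧ pd m.primeFactors = r l ∧
      Real.log m ≤ B * Real.log X}.ncard : ℝ)) := by
    exact_mod_cast h2
  have h4 : ∏ l ∈ univ.erase k, (2 * ({m : ℕ | m ≠ 0 ∧ pd m.primeFactors = r l ∧
      Real.log m ≤ B * Real.log X}.ncard : ℝ)) ≤
      ∏ l ∈ univ.erase k, ((2 * C * X ^ η) * (2 + B) ^ (r l).primeFactors.card) := by
    refine Finset.prod_le_prod (fun l _ => by positivity) fun l _ => ?_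
    have h5 := (hMUL (r l) (hr l)).2
    nlinarith
  calc (T.ncard : ℝ) ≤ ∏ l ∈ univ.erase k, ((2 * C * X ^ η) * (2 + B) ^ (r l).primeFactors.card) :=
        h3.trans h4
    _ = (2 * C * X ^ η) ^ (univ.erase k).card *
        ∏ l ∈ univ.erase k, (2 + B) ^ (r l).primeFactors.card := by
        rw [Finset.prod_mul_distrib, Finset.prod_const]
    _ ≤ _ := mul_le_mul_of_nonneg_right (pow_le_pow_right₀ (by linarith) hcard)
        (Finset.prod_nonneg fun l _ => by positivity)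

end Pool.Agent.H38.AT
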